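import Pool.Agent.helper747_sp.Lower

/-!
# The trace of the cube
-/

set_option autoImplicit false

namespace Pool.Agent.helper747_sp

open MvPolynomial Matrix
open Pool.Agent.H53R3 (SLPComputes IsSLP affS)
open Pool.Agent.H515R2.MMR

/-- the trace of the third power -/
noncomputable def tr3 (n : ℕ) : Pol n :=
  ∑ i : Fin n, ∑ j : Fin n, ∑ k : Fin n, X (i, j) * X (j, k) * X (k, i)

variable {n : ℕ}

theorem val_tr3 (A : Mt n) : val (tr3 n) A = (A * A * A).trace := by
  simp only [val, tr3, map_sum, map_mul, eval_X, Matrix.trace, Matrix.diag, Matrix.mul_apply,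
    Finset.sum_mul]
  refine Finset.sum_congr rfl fun i _ => ?_
  rw [Finset.sum_comm]

theorem tr3_invariant : Invariant (tr3 n) := by
  intro g h A hgh
  have hhg : h * g = 1 := mul_eq_one_comm.1 hgh
  rw [val_tr3, val_tr3]
  have e1 : g * A * h * (g * A * h) * (g * A * h) = g * (A * A * A) * h := by
    calc g * A * h * (g * A * h) * (g * A * h)
        = g * A * (h * g) * A * (h * g) * A * h := by simp only [mul_assoc]
      _ = _ := by rw [hhg, mul_one, mul_one]; simp only [mul_assoc]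
  rw [e1, trace_conj g h _ hgh]

theorem tr3_not (hn : 3 ≤ n) : ¬ OfTraces (tr3 n) := by
  rintro ⟨H, hH⟩
  have key : ∀ a b c : ℂ, (∀ k : ℕ, 1 ≤ k → ∑ i : Fin n, (if i.1 = 0 then a else if i.1 = 1 then b
      else if i.1 = 2 then c else 0) ^ k = a ^ k + b ^ k + c ^ k) := by
    intro a b c k hk
    have h1 : ∀ i : Fin n, (if i.1 = 0 then a else if i.1 = 1 then b
        else if i.1 = 2 then c else 0) ^ k = (if i = ⟨0, by omega⟩ then a ^ k else 0) +
        (if i = ⟨1, by omega⟩ then b ^ k else 0) + (if i = ⟨2, by omega⟩ then c ^ k else 0) := by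
      intro i
      simp only [Fin.ext_iff]
      by_cases h0 : i.1 = 0
      · rw [if_pos h0, if_pos h0, if_neg (by omega), if_neg (by omega)]; ring
      · by_cases h1 : i.1 = 1
        · rw [if_neg h0, if_pos h1, if_neg h0, if_pos h1, if_neg (by omega)]; ring
        · by_cases h2 : i.1 = 2
          · rw [if_neg h0, if_neg h1, if_pos h2, if_neg h0, if_neg h1, if_pos h2]; ring
          · rw [if_neg h0, if_neg h1, if_neg h2, if_neg h0, if_neg h1, if_neg h2,
              zero_pow (by omega)]; ring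
    rw [Finset.sum_congr rfl fun i _ => h1 i, Finset.sum_add_distrib, Finset.sum_add_distrib,
      Finset.sum_ite_eq', Finset.sum_ite_eq', Finset.sum_ite_eq', if_pos (Finset.mem_univ _),
      if_pos (Finset.mem_univ _), if_pos (Finset.mem_univ _)]
  have hd : ∀ a b c : ℂ, a ^ 3 + b ^ 3 + c ^ 3 = eval ![a + b + c, a ^ 2 + b ^ 2 + c ^ 2] H := by
    intro a b c
    have h1 := hH (Matrix.diagonal fun i : Fin n => if i.1 = 0 then a else if i.1 = 1 then b
      else if i.1 = 2 then c else 0)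
    rw [val_tr3, Matrix.diagonal_mul_diagonal, Matrix.diagonal_mul_diagonal,
      Matrix.trace_diagonal, Matrix.trace_diagonal, Matrix.trace_diagonal] at h1
    have k1 := key a b c 1 le_rfl
    have k2 := key a b c 2 (by norm_num)
    have k3 := key a b c 3 (by norm_num)
    simp only [pow_one] at k1
    have e2 : ∀ z : ℂ, z * z = z ^ 2 := fun z => (sq z).symm
    have e3 : ∀ z : ℂ, z * z * z = z ^ 3 := fun z => by ring
    simp only [e3] at h1
    simp only [e2] at h1
    rw [k1, k2, k3] at h1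
    exact h1
  have h1 := hd 0 3 3
  have h2 := hd 1 1 4
  have e : (![(0 : ℂ) + 3 + 3, 0 ^ 2 + 3 ^ 2 + 3 ^ 2] : Fin 2 → ℂ) =
      ![1 + 1 + 4, 1 ^ 2 + 1 ^ 2 + 4 ^ 2] := by
    congr 1
    · norm_num
    · congr 1
      norm_num
  rw [e, ← h2] at h1
  norm_num at h1

/-- linear combinations of the variables -/
noncomputable def lc (a : Fin n → Fin n → ℂ) : Pol n := ∑ i, ∑ j, C (a i j) * X (i, j)

theorem lc_mem (a : Fin n → Fin n → ℂ) (g : ℕ → Rf (Fin n × Fin n)) (l : ℕ) :
    algebraMap (Pol n) (Rf (Fin n × Fin n)) (lc a) ∈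
      affS (fun k : Fin (n * n) => xr (finProdFinEquiv.symm k)) g l := by
  unfold lc
  rw [map_sum]
  refine Submodule.sum_mem _ fun i _ => ?_
  rw [map_sum]
  refine Submodule.sum_mem _ fun j _ => ?_
  have h1 : algebraMap (Pol n) (Rf (Fin n × Fin n)) (C (a i j) * X (i, j)) =
      a i j • (xr (i, j) : Rf (Fin n × Fin n)) := by
    rw [Algebra.smul_def, map_mul]
    congr 1
  rw [h1]
  refine Submodule.smul_mem _ _ (Submodule.subset_span (Or.inl (Or.inr ?_)))
  exact ⟨finProdFinEquiv (i, j), by simp⟩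

theorem val_lc (a : Fin n → Fin n → ℂ) (A : Mt n) :
    val (lc a) A = lf (fun p => a p.1 p.2) A := by
  simp only [val, lc, lf, map_sum, map_mul, eval_C, eval_X, Fintype.sum_prod_type]

theorem tr3_eq {r : ℕ} {a b c : Fin r → Fin n → Fin n → ℂ}
    (hh : ∀ i j j' k k' l : Fin n, (if j = j' ∧ k = k' ∧ l = i then (1 : ℂ) else 0) =
      ∑ t : Fin r, a t i j * b t j' k * c t k' l) :
    tr3 n = ∑ t, lc (a t) * lc (b t) * lc (c t) := by
  refine pol_ext fun A => ?_
  have h1 : val (∑ t, lc (a t) * lc (b t) * lc (c t)) A =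
      ∑ t, lf (fun p => a t p.1 p.2) A * lf (fun p => b t p.1 p.2) A *
        lf (fun p => c t p.1 p.2) A := by
    have h2 : ∀ u v : Pol n, val (u * v) A = val u A * val v A := fun u v => map_mul _ _ _
    have h3 : ∀ u : Fin r → Pol n, val (∑ t, u t) A = ∑ t, val (u t) A := fun u => map_sum _ _ _
    rw [h3]
    simp only [h2, val_lc]
  rw [h1]
  have h4 : ∀ p q s : Fin n × Fin n,
      ∑ t, (c t s.1 s.2 * b t q.1 q.2 * a t p.1 p.2) * A s.1 s.2 * A q.1 q.2 * A p.1 p.2 =
      if s = (q.2, p.1) then (if p.2 = q.1 then A s.1 s.2 * A q.1 q.2 * A p.1 p.2 else 0)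
        else 0 := by
    intro p q s
    have h5 := hh p.1 p.2 q.1 q.2 s.1 s.2
    have h6 : ∑ t, (c t s.1 s.2 * b t q.1 q.2 * a t p.1 p.2) * A s.1 s.2 * A q.1 q.2 *
        A p.1 p.2 = (∑ t, a t p.1 p.2 * b t q.1 q.2 * c t s.1 s.2) *
          (A s.1 s.2 * A q.1 q.2 * A p.1 p.2) := by
      rw [Finset.sum_mul]
      refine Finset.sum_congr rfl fun t _ => ?_
      ring
    rw [h6, ← h5]
    by_cases e1 : p.2 = q.1
    · by_cases e2 : s = (q.2, p.1)
      · subst e2
        rw [if_pos ⟨e1, rfl, rfl⟩, if_pos rfl, if_pos e1, one_mul]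
      · rw [if_neg e2, if_neg, zero_mul]
        rintro ⟨-, e3, e4⟩
        exact e2 (Prod.ext e3.symm e4)
    · rw [if_neg e1, if_neg fun h => e1 h.1, zero_mul, ite_self]
  have h7 : ∑ t, lf (fun p => a t p.1 p.2) A * lf (fun p => b t p.1 p.2) A *
        lf (fun p => c t p.1 p.2) A = ∑ p : Fin n × Fin n, ∑ q : Fin n × Fin n,
          ∑ s : Fin n × Fin n, ∑ t, (c t s.1 s.2 * b t q.1 q.2 * a t p.1 p.2) * A s.1 s.2 *
            A q.1 q.2 * A p.1 p.2 := by
    simp only [← tri_lf]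
    rw [Finset.sum_comm]
    refine Finset.sum_congr rfl fun p _ => ?_
    rw [Finset.sum_comm]
    refine Finset.sum_congr rfl fun q _ => ?_
    rw [Finset.sum_comm]
  rw [h7]
  simp only [h4, Finset.sum_ite_eq', Finset.mem_univ, if_true]
  rw [Fintype.sum_prod_type]
  have h8 : val (tr3 n) A = ∑ i : Fin n, ∑ j : Fin n, ∑ k : Fin n, A i j * A j k * A k i := by
    simp only [val, tr3, map_sum, map_mul, eval_X]
  rw [h8]
  refine Finset.sum_congr rfl fun i _ => Finset.sum_congr rfl fun j _ => ?_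
  symm
  rw [Fintype.sum_prod_type, Finset.sum_eq_single j]
  · refine Finset.sum_congr rfl fun k _ => ?_
    rw [if_pos rfl]
    ring
  · intro j' _ hj
    refine Finset.sum_eq_zero fun k _ => ?_
    rw [if_neg (Ne.symm hj)]
  · intro h; exact absurd (Finset.mem_univ _) h

theorem tr3_comp {r : ℕ} (h : HasRank n r) : Comp (tr3 n) (2 * r) := by
  obtain ⟨a, b, c, hh⟩ := h
  have htr := tr3_eq hh
  let al : Pol n → Rf (Fin n × Fin n) := algebraMap (Pol n) (Rf (Fin n × Fin n))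
  let g : ℕ → Rf (Fin n × Fin n) := fun l =>
    if h : l / 2 < r then (if l % 2 = 0 then al (lc (a ⟨l / 2, h⟩)) * al (lc (b ⟨l / 2, h⟩))
      else al (lc (a ⟨l / 2, h⟩)) * al (lc (b ⟨l / 2, h⟩)) * al (lc (c ⟨l / 2, h⟩))) else 0
  refine ⟨g, ?_, ?_⟩
  · intro l hl
    have hl2 : l / 2 < r := by omega
    by_cases hpar : l % 2 = 0
    · refine ⟨_, lc_mem (a ⟨l / 2, hl2⟩) g l, _, lc_mem (b ⟨l / 2, hl2⟩) g l, Or.inl ?_⟩
      simp only [g]
      rw [dif_pos hl2, if_pos hpar]
    · refine ⟨g (l - 1), Submodule.subset_span (Or.inr ⟨l - 1, ?_, rfl⟩), _,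
        lc_mem (c ⟨l / 2, hl2⟩) g l, Or.inl ?_⟩
      · change l - 1 < l
        omega
      · have e1 : (l - 1) / 2 = l / 2 := by omega
        have e2 : (l - 1) % 2 = 0 := by omega
        simp only [g]
        rw [dif_pos hl2, if_neg hpar, dif_pos (by rw [e1]; exact hl2), if_pos e2]
        simp only [e1]
        rfl
  · intro f hf
    rw [Set.mem_singleton_iff] at hf
    subst hf
    have h1 : al (tr3 n) = ∑ t : Fin r, g (2 * t.1 + 1) := by
      rw [htr]
      simp only [al, map_sum, map_mul]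
      refine Finset.sum_congr rfl fun t _ => ?_
      have e1 : (2 * t.1 + 1) / 2 = t.1 := by omega
      have e2 : (2 * t.1 + 1) % 2 = 1 := by omega
      simp only [g]
      rw [dif_pos (by rw [e1]; exact t.2), if_neg (by rw [e2]; decide)]
      simp only [e1]
      rfl
    change al (tr3 n) ∈ _
    rw [h1]
    refine Submodule.sum_mem _ fun t _ => Submodule.subset_span (Or.inr ⟨2 * t.1 + 1, ?_, rfl⟩)
    change 2 * t.1 + 1 < 2 * r
    have := t.2
    omega

/-- exponents for which infinitely often some nontrivial invariant polynomial is easy -/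
def Exps : Set ℝ :=
  {τ : ℝ | ∀ N : ℕ, ∃ n : ℕ, N ≤ n ∧ ∃ f : Pol n, Invariant f ∧ ¬ OfTraces f ∧
    ∃ L : ℕ, Comp f L ∧ (L : ℝ) ≤ (n : ℝ) ^ τ}

theorem rk_exp {m r : ℕ} (hm : 1 ≤ m) (h : HasRank m r) : (m : ℝ) ^ omega ≤ r := by
  obtain ⟨a, b, c, hh⟩ := h
  refine AD.omega_le (h := 0) hm ⟨fun t i j => Polynomial.C (a t i j),
    fun t i j => Polynomial.C (b t i j), fun t i j => Polynomial.C (c t i j),
    fun i j j' k k' l => Polynomial.C (if j = j' ∧ k = k' ∧ l = i then 1 else 0), ?_⟩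
  intro i j j' k k' l
  refine ⟨?_, by rw [Polynomial.eval_C]⟩
  beta_reduce
  rw [pow_zero, one_mul, hh, map_sum]
  refine Finset.sum_congr rfl fun t _ => ?_
  rw [map_mul, map_mul]

theorem le_of_mem {τ : ℝ} (hτ : τ ∈ Exps) : omega ≤ τ := by
  by_contra hcon
  push Not at hcon
  set δ : ℝ := omega - τ with hδ
  have hδ0 : 0 < δ := by rw [hδ]; linarith
  -- for large `n` the power `n ^ δ` is large
  have ht := (tendsto_rpow_atTop hδ0).comp tendsto_natCast_atTop_atTop
  obtain ⟨N, hN⟩ := Filter.eventually_atTop.1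
    (ht.eventually (Filter.eventually_gt_atTop (18 * (4 : ℝ) ^ omega)))
  obtain ⟨n, hn, f, hf, hnot, L, hL, hLn⟩ := hτ (max N 9)
  have hn9 : 9 ≤ n := le_trans (le_max_right _ _) hn
  have hnN : N ≤ n := le_trans (le_max_left _ _) hn
  have hr := lower (m := n / 3) (by omega) (by omega) hf hnot hL
  have h1 := rk_exp (by omega) hr
  have hn0 : (0 : ℝ) < n := by
    have : 0 < n := by omega
    exact_mod_cast this
  have h2 : (n : ℝ) / 4 ≤ ((n / 3 : ℕ) : ℝ) := by
    have : n ≤ 4 * (n / 3) := by omega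
    have h3 : (n : ℝ) ≤ 4 * ((n / 3 : ℕ) : ℝ) := by exact_mod_cast this
    linarith
  have h3 : ((n : ℝ) / 4) ^ omega ≤ 18 * (n : ℝ) ^ τ := by
    refine (Real.rpow_le_rpow (by positivity) h2 omega_nonneg).trans (h1.trans ?_)
    push_cast
    linarith
  rw [Real.div_rpow hn0.le (by norm_num), div_le_iff₀ (by positivity)] at h3
  have h4 : (n : ℝ) ^ omega = (n : ℝ) ^ δ * (n : ℝ) ^ τ := by
    rw [← Real.rpow_add hn0, hδ]
    congr 1
    ring
  have h5 : (18 * (4 : ℝ) ^ omega) < (n : ℝ) ^ δ := hN n hnN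
  have h6 : (0 : ℝ) < (n : ℝ) ^ τ := Real.rpow_pos_of_pos hn0 τ
  rw [h4] at h3
  have h7 : (n : ℝ) ^ δ ≤ 18 * 4 ^ omega := by
    by_contra hc
    push Not at hc
    have := mul_lt_mul_of_pos_right hc h6
    linarith
  linarith

theorem mem_of_lt {τ : ℝ} (hτ : omega < τ) : τ ∈ Exps := by
  obtain ⟨τ', ⟨C, hC⟩, hττ'⟩ := exists_lt_of_csInf_lt omega_set_nonempty hτ
  set δ : ℝ := τ - τ' with hδ
  have hδ0 : 0 < δ := by rw [hδ]; linarith
  have ht := (tendsto_rpow_atTop hδ0).comp tendsto_natCast_atTop_atTop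
  obtain ⟨N0, hN0⟩ := Filter.eventually_atTop.1
    (ht.eventually (Filter.eventually_ge_atTop (2 * C)))
  intro N
  set n : ℕ := max N (max N0 3) with hn
  have hn3 : 3 ≤ n := le_trans (le_max_right _ _) (le_max_right _ _)
  have hnN0 : N0 ≤ n := le_trans (le_max_left _ _) (le_max_right _ _)
  refine ⟨n, le_max_left _ _, tr3 n, tr3_invariant, tr3_not hn3, 2 * rk n,
    tr3_comp (hasRank_rk n), ?_⟩
  have hn0 : (0 : ℝ) < n := by
    have : 0 < n := by omega
    exact_mod_cast this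
  have h1 := hC n
  have h2 : (2 * C : ℝ) ≤ (n : ℝ) ^ δ := hN0 n hnN0
  have h3 : (n : ℝ) ^ τ = (n : ℝ) ^ δ * (n : ℝ) ^ τ' := by
    rw [← Real.rpow_add hn0, hδ]
    congr 1
    ring
  have h4 : (0 : ℝ) < (n : ℝ) ^ τ' := Real.rpow_pos_of_pos hn0 τ'
  push_cast
  calc (2 : ℝ) * rk n ≤ 2 * (C * (n : ℝ) ^ τ') := by linarith
    _ = (2 * C) * (n : ℝ) ^ τ' := by ring
    _ ≤ (n : ℝ) ^ δ * (n : ℝ) ^ τ' := mul_le_mul_of_nonneg_right h2 h4.le
    _ = _ := h3.symm

theorem exponent : sInf Exps = omega := by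
  refine le_antisymm ?_ ?_
  · refine le_of_forall_gt_imp_ge_of_dense fun τ hτ => ?_
    exact csInf_le ⟨omega, fun _ h => le_of_mem h⟩ (mem_of_lt hτ)
  · exact le_csInf ⟨omega + 1, mem_of_lt (by linarith)⟩ fun _ h => le_of_mem h

end Pool.Agent.helper747_sp
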