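import Mathlib

/-!
# Symmetric polynomials whose gradient is a combination of `1` and the argument
-/

set_option autoImplicit false

namespace Pool.Agent.helper747_sp

open MvPolynomial

/-- the derivative of a polynomial along a curve -/
theorem hasDerivAt_eval {σ : Type} [Fintype σ] (P : MvPolynomial σ ℂ) (c : ℂ → σ → ℂ) (c' : σ → ℂ)
    (t : ℂ) (hc : ∀ i, HasDerivAt (fun t => c t i) (c' i) t) :
    HasDerivAt (fun t => eval (c t) P) (∑ i, eval (c t) (pderiv i P) * c' i) t := by
  classical
  induction P using MvPolynomial.induction_on with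
  | C a =>
    simp only [eval_C, pderiv_C, map_zero, zero_mul, Finset.sum_const_zero]
    exact hasDerivAt_const t a
  | add p q hp hq =>
    simp only [map_add, add_mul, Finset.sum_add_distrib]
    exact hp.add hq
  | mul_X p j hp =>
    simp only [map_mul, eval_X]
    have h := hp.mul (hc j)
    refine h.congr_deriv ?_
    have h1 : ∀ i, eval (c t) (pderiv i (p * X j)) * c' i =
        (if i = j then eval (c t) p * c' i else 0) +
          (eval (c t) (pderiv i p) * c' i) * c t j := by
      intro i
      rw [Derivation.leibniz, smul_eq_mul, smul_eq_mul, map_add, map_mul, map_mul, eval_X]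
      by_cases h : i = j
      · subst h
        rw [pderiv_X_self, if_pos rfl, map_one]
        ring
      · rw [pderiv_X_of_ne (fun h' => h h'.symm), if_neg h, map_zero]
        ring
    rw [Finset.sum_congr rfl fun i _ => h1 i, Finset.sum_add_distrib, ← Finset.sum_mul,
      Finset.sum_ite_eq' Finset.univ j, if_pos (Finset.mem_univ _)]
    ring

variable {n : ℕ}

theorem grad_zero (a x y : Fin n → ℂ)
    (h : ∀ i j k, (x j - x k) * a i + (x k - x i) * a j + (x i - x j) * a k = 0)
    (hy : ∑ i, y i = 0) (hxy : ∑ i, x i * y i = 0) (j k : Fin n) :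
    (x j - x k) * ∑ i, a i * y i = 0 := by
  have h1 : ∑ i, ((x j - x k) * a i + (x k - x i) * a j + (x i - x j) * a k) * y i = 0 :=
    Finset.sum_eq_zero fun i _ => by rw [h, zero_mul]
  have h2 : ∑ i, ((x j - x k) * a i + (x k - x i) * a j + (x i - x j) * a k) * y i =
      (x j - x k) * ∑ i, a i * y i + (a j * x k - a k * x j) * ∑ i, y i +
        (a k - a j) * ∑ i, x i * y i := by
    rw [Finset.mul_sum, Finset.mul_sum, Finset.mul_sum, ← Finset.sum_add_distrib,
      ← Finset.sum_add_distrib]
    refine Finset.sum_congr rfl fun i _ => ?_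
    ring
  rw [h1, hy, hxy, mul_zero, mul_zero, add_zero, add_zero] at h2
  exact h2.symm

/-- `G` is constant on circles in spheres. -/
theorem rot {G : MvPolynomial (Fin n) ℂ}
    (hW : ∀ i j k, (X j - X k) * pderiv i G + (X k - X i) * pderiv j G +
      (X i - X j) * pderiv k G = 0) (s : ℂ) (u v : Fin n → ℂ) (hu : ∑ i, u i = 0)
    (hv : ∑ i, v i = 0) (ρ : ℂ) (hρ : ρ ≠ 0) (huu : ∑ i, u i * u i = ρ)
    (hvv : ∑ i, v i * v i = ρ) (hne : (∑ i, u i * v i) ^ 2 ≠ ρ ^ 2) :
    eval (fun i => s + u i) G = eval (fun i => s + v i) G := by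
  set κ : ℂ := (∑ i, u i * v i) / ρ with hκ
  have hκρ : ∑ i, u i * v i = κ * ρ := by rw [hκ, div_mul_cancel₀ _ hρ]
  have hκ1 : 1 - κ ^ 2 ≠ 0 := by
    intro h
    apply hne
    have : κ ^ 2 = 1 := by linear_combination -h
    rw [hκρ, mul_pow, this, one_mul]
  obtain ⟨η, hη⟩ := IsAlgClosed.exists_pow_nat_eq (1 - κ ^ 2) (n := 2) (by norm_num)
  have hη0 : η ≠ 0 := by
    intro h
    rw [h] at hη
    exact hκ1 (by rw [← hη]; norm_num)
  set w : Fin n → ℂ := fun i => (v i - κ * u i) / η with hw
  have hwη : ∀ i, η * w i = v i - κ * u i := fun i => by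
    rw [hw]; exact mul_div_cancel₀ _ hη0
  have hws : ∑ i, w i = 0 := by
    have h1 : η * ∑ i, w i = 0 := by
      rw [Finset.mul_sum, Finset.sum_congr rfl fun i _ => hwη i, Finset.sum_sub_distrib,
        ← Finset.mul_sum, hu, hv]
      ring
    exact (mul_eq_zero.1 h1).resolve_left hη0
  have huw : ∑ i, u i * w i = 0 := by
    have h1 : η * ∑ i, u i * w i = 0 := by
      have : ∀ i, η * (u i * w i) = u i * v i - κ * (u i * u i) := by
        intro i
        linear_combination u i * hwη i
      rw [Finset.mul_sum, Finset.sum_congr rfl fun i _ => this i, Finset.sum_sub_distrib,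
        ← Finset.mul_sum, huu, hκρ]
      ring
    exact (mul_eq_zero.1 h1).resolve_left hη0
  have hww : ∑ i, w i * w i = ρ := by
    have h1 : η ^ 2 * ∑ i, w i * w i = η ^ 2 * ρ := by
      have : ∀ i, η ^ 2 * (w i * w i) = v i * v i - 2 * κ * (u i * v i) +
          κ ^ 2 * (u i * u i) := by
        intro i
        linear_combination (η * w i + (v i - κ * u i)) * hwη i
      rw [Finset.mul_sum, Finset.sum_congr rfl fun i _ => this i, Finset.sum_add_distrib,
        Finset.sum_sub_distrib, ← Finset.mul_sum, ← Finset.mul_sum, huu, hvv, hκρ, hη]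
      ring
    exact mul_left_cancel₀ (pow_ne_zero 2 hη0) h1
  -- the angle
  have hprod : (κ + Complex.I * η) * (κ - Complex.I * η) = 1 := by
    linear_combination hη - η ^ 2 * Complex.I_sq
  have hz0 : κ + Complex.I * η ≠ 0 := left_ne_zero_of_mul_eq_one hprod
  set t0 : ℂ := -Complex.I * Complex.log (κ + Complex.I * η) with ht0
  have hI : Complex.I * Complex.I = -1 := Complex.I_mul_I
  have e1 : Complex.exp (t0 * Complex.I) = κ + Complex.I * η := by
    rw [show t0 * Complex.I = Complex.log (κ + Complex.I * η) by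
      rw [ht0]; linear_combination (-Complex.log (κ + Complex.I * η)) * hI]
    exact Complex.exp_log hz0
  have e2 : Complex.exp (-t0 * Complex.I) = κ - Complex.I * η := by
    rw [neg_mul, Complex.exp_neg, e1]
    exact inv_eq_of_mul_eq_one_right hprod
  have hcos : Complex.cos t0 = κ := by
    rw [Complex.cos, e1, e2]; ring
  have hsin : Complex.sin t0 = η := by
    rw [Complex.sin, e1, e2]; linear_combination (-η) * hI
  -- the curve
  let c : ℂ → Fin n → ℂ := fun t i => s + (Complex.cos t * u i + Complex.sin t * w i)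
  let c' : ℂ → Fin n → ℂ := fun t i => -Complex.sin t * u i + Complex.cos t * w i
  have hc : ∀ t i, HasDerivAt (fun t => c t i) (c' t i) t := by
    intro t i
    exact (((Complex.hasDerivAt_cos t).mul_const (u i)).add
      ((Complex.hasDerivAt_sin t).mul_const (w i))).const_add s
  have hF : ∀ t, HasDerivAt (fun t => eval (c t) G) 0 t := by
    intro t
    have h1 := hasDerivAt_eval G c (c' t) t (hc t)
    refine h1.congr_deriv ?_
    have hgr : ∀ i j k, (c t j - c t k) * eval (c t) (pderiv i G) +
        (c t k - c t i) * eval (c t) (pderiv j G) +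
        (c t i - c t j) * eval (c t) (pderiv k G) = 0 := by
      intro i j k
      have := congrArg (eval (c t)) (hW i j k)
      simpa using this
    have hc'0 : ∑ i, c' t i = 0 := by
      simp only [c', Finset.sum_add_distrib, ← Finset.mul_sum, hu, hws, mul_zero, add_zero]
    have hcs := Complex.sin_sq_add_cos_sq t
    have hcc' : ∑ i, c t i * c' t i = 0 := by
      have : ∀ i, c t i * c' t i = s * c' t i +
          (-(Complex.cos t * Complex.sin t) * (u i * u i) +
            (Complex.cos t ^ 2 - Complex.sin t ^ 2) * (u i * w i) +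
            (Complex.cos t * Complex.sin t) * (w i * w i)) := by
        intro i
        simp only [c, c']
        ring
      rw [Finset.sum_congr rfl fun i _ => this i, Finset.sum_add_distrib, Finset.sum_add_distrib,
        Finset.sum_add_distrib, ← Finset.mul_sum, ← Finset.mul_sum, ← Finset.mul_sum,
        ← Finset.mul_sum, hc'0, huu, huw, hww]
      ring
    have hS := grad_zero (fun i => eval (c t) (pderiv i G)) (c t) (c' t) hgr hc'0 hcc'
    by_contra hcon
    have hconst : ∀ j k, c t j = c t k := fun j k =>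
      sub_eq_zero.1 ((mul_eq_zero.1 (hS j k)).resolve_right hcon)
    -- the coordinates are all equal: contradiction
    have hzz : ∑ i, (Complex.cos t * u i + Complex.sin t * w i) *
        (Complex.cos t * u i + Complex.sin t * w i) = ρ := by
      have : ∀ i, (Complex.cos t * u i + Complex.sin t * w i) *
          (Complex.cos t * u i + Complex.sin t * w i) = Complex.cos t ^ 2 * (u i * u i) +
          2 * Complex.cos t * Complex.sin t * (u i * w i) + Complex.sin t ^ 2 * (w i * w i) := by
        intro i; ring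
      rw [Finset.sum_congr rfl fun i _ => this i, Finset.sum_add_distrib, Finset.sum_add_distrib,
        ← Finset.mul_sum, ← Finset.mul_sum, ← Finset.mul_sum, huu, huw, hww]
      linear_combination ρ * hcs
    have hz : ∑ i, (Complex.cos t * u i + Complex.sin t * w i) = 0 := by
      rw [Finset.sum_add_distrib, ← Finset.mul_sum, ← Finset.mul_sum, hu, hws]
      ring
    rcases Nat.eq_zero_or_pos n with hn | hn
    · subst hn
      simp at huu
      exact hρ huu.symm
    · set i0 : Fin n := ⟨0, hn⟩ with hi0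
      have hcst : ∀ i, Complex.cos t * u i + Complex.sin t * w i =
          Complex.cos t * u i0 + Complex.sin t * w i0 := by
        intro i
        have := hconst i i0
        simp only [c] at this
        exact add_left_cancel this
      rw [Finset.sum_congr rfl fun i _ => hcst i, Finset.sum_const, Finset.card_univ,
        Fintype.card_fin, nsmul_eq_mul] at hz
      have h0 : Complex.cos t * u i0 + Complex.sin t * w i0 = 0 :=
        (mul_eq_zero.1 hz).resolve_left (by exact_mod_cast hn.ne')
      apply hρ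
      rw [← hzz]
      refine Finset.sum_eq_zero fun i _ => ?_
      rw [hcst i, h0, zero_mul]
  have hconst := is_const_of_deriv_eq_zero (f := fun t => eval (c t) G)
    (fun t => (hF t).differentiableAt) (fun t => (hF t).deriv) 0 t0
  have h0 : c 0 = fun i => s + u i := by
    funext i
    simp [c]
  have h1 : c t0 = fun i => s + v i := by
    funext i
    simp only [c, hcos, hsin]
    rw [hwη]
    ring
  simp only [h0, h1] at hconst
  exact hconst

theorem even2 (q : MvPolynomial (Fin 2) ℂ) : ∃ Q : MvPolynomial (Fin 2) ℂ, ∀ s c : ℂ,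
    eval ![s, c] q + eval ![s, -c] q = eval ![s, c ^ 2] Q := by
  induction q using MvPolynomial.induction_on' with
  | monomial u a =>
    have h : ∀ s c : ℂ, eval ![s, c] (monomial u a) = a * (s ^ u 0 * c ^ u 1) := by
      intro s c
      rw [eval_monomial, Finsupp.prod_fintype _ _ (fun i => pow_zero _), Fin.prod_univ_two]
      simp
    rcases Nat.even_or_odd (u 1) with ⟨l, hl⟩ | hodd
    · refine ⟨C (2 * a) * X 0 ^ u 0 * X 1 ^ l, fun s c => ?_⟩
      rw [h, h, hl]
      simp only [map_mul, map_pow, eval_C, eval_X, Matrix.cons_val_zero, Matrix.cons_val_one]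
      rw [← two_mul, pow_mul, pow_mul, neg_sq]
      ring
    · refine ⟨0, fun s c => ?_⟩
      rw [h, h, hodd.neg_pow, show eval ![s, c ^ 2] (0 : MvPolynomial (Fin 2) ℂ) = 0 from
        map_zero _]
      ring
  | add p q hp hq =>
    obtain ⟨P, hP⟩ := hp
    obtain ⟨Q, hQ⟩ := hq
    refine ⟨P + Q, fun s c => ?_⟩
    rw [map_add, map_add, map_add, ← hP, ← hQ]
    ring

/-- A symmetric polynomial whose gradient is everywhere a combination of `1` and the argument is a
polynomial in the first two power sums. -/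
theorem two_sums (hn : 3 ≤ n) (G : MvPolynomial (Fin n) ℂ)
    (hsym : ∀ (σ : Equiv.Perm (Fin n)) (x : Fin n → ℂ), eval (x ∘ σ) G = eval x G)
    (hW : ∀ i j k, (X j - X k) * pderiv i G + (X k - X i) * pderiv j G +
      (X i - X j) * pderiv k G = 0) :
    ∃ H : MvPolynomial (Fin 2) ℂ, ∀ x : Fin n → ℂ,
      eval x G = eval ![∑ i, x i, ∑ i, x i * x i] H := by
  have hn0 : (n : ℂ) ≠ 0 := by
    have : n ≠ 0 := by omega
    exact_mod_cast this
  set i0 : Fin n := ⟨0, by omega⟩ with hi0
  set i1 : Fin n := ⟨1, by omega⟩ with hi1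
  set i2 : Fin n := ⟨2, by omega⟩ with hi2
  have h01 : i0 ≠ i1 := by simp [hi0, hi1]
  have h20 : i2 ≠ i0 := by simp [hi0, hi2]
  have h21 : i2 ≠ i1 := by simp [hi1, hi2]
  let vv : Fin n → ℂ := fun i => if i = i0 then 1 else if i = i1 then -1 else 0
  have hvsum : ∀ g : Fin n → ℂ, ∑ i, g i * vv i = g i0 - g i1 := by
    intro g
    have : ∀ i, g i * vv i = (if i = i0 then g i else 0) - (if i = i1 then g i else 0) := by
      intro i
      simp only [vv]
      by_cases h : i = i0
      · rw [if_pos h, if_pos h, if_neg (fun h' => h01 (h.symm.trans h'))]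
        ring
      · rw [if_neg h, if_neg h]
        by_cases h' : i = i1
        · rw [if_pos h', if_pos h']; ring
        · rw [if_neg h', if_neg h']; ring
    rw [Finset.sum_congr rfl fun i _ => this i, Finset.sum_sub_distrib, Finset.sum_ite_eq',
      Finset.sum_ite_eq', if_pos (Finset.mem_univ _), if_pos (Finset.mem_univ _)]
  let q : MvPolynomial (Fin 2) ℂ := aeval (fun i => X 0 + C (vv i) * X 1) G
  have hq : ∀ s c : ℂ, eval ![s, c] q = eval (fun i => s + c * vv i) G := by
    intro s c
    have h1 : eval ![s, c] q = aeval (R := ℂ) ![s, c] q :=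
      congrArg (fun φ : MvPolynomial (Fin 2) ℂ →+* ℂ => φ q) (coe_aeval_eq_eval _).symm
    have h2 : eval (fun i => s + c * vv i) G = aeval (R := ℂ) (fun i => s + c * vv i) G :=
      congrArg (fun φ : MvPolynomial (Fin n) ℂ →+* ℂ => φ G) (coe_aeval_eq_eval _).symm
    rw [h1, h2, comp_aeval_apply]
    congr 1
    congr 1
    funext i
    simp [mul_comm]
  obtain ⟨Q, hQ⟩ := even2 q
  have hq2 : ∀ s c : ℂ, eval ![s, c] q = 1 / 2 * eval ![s, c ^ 2] Q := by
    intro s c
    have h1 : eval ![s, -c] q = eval ![s, c] q := by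
      rw [hq, hq, ← hsym (Equiv.swap i0 i1) (fun i => s + c * vv i)]
      congr 1
      congr 1
      funext i
      simp only [Function.comp, vv]
      by_cases h : i = i0
      · subst h
        rw [Equiv.swap_apply_left, if_pos rfl, if_neg h01.symm, if_pos rfl]
        ring
      · by_cases h' : i = i1
        · subst h'
          rw [Equiv.swap_apply_right, if_pos rfl, if_neg h, if_pos rfl]
          ring
        · rw [Equiv.swap_apply_of_ne_of_ne h h', if_neg h, if_neg h']
          ring
    rw [← hQ, h1]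
    ring
  let H : MvPolynomial (Fin 2) ℂ := C (1 / 2) *
    aeval ![C (1 / (n : ℂ)) * X 0, C (1 / 2) * (X 1 - C (1 / (n : ℂ)) * X 0 ^ 2)] Q
  have hH : ∀ t1 t2 : ℂ, eval ![t1, t2] H = 1 / 2 *
      eval ![1 / (n : ℂ) * t1, 1 / 2 * (t2 - 1 / (n : ℂ) * t1 ^ 2)] Q := by
    intro t1 t2
    simp only [H, map_mul, eval_C]
    congr 1
    have h1 : ∀ P : MvPolynomial (Fin 2) ℂ, eval ![t1, t2] P = aeval (R := ℂ) ![t1, t2] P :=
      fun P => congrArg (fun φ : MvPolynomial (Fin 2) ℂ →+* ℂ => φ P) (coe_aeval_eq_eval _).symm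
    have h2 : ∀ P : MvPolynomial (Fin 2) ℂ,
        eval ![1 / (n : ℂ) * t1, 1 / 2 * (t2 - 1 / (n : ℂ) * t1 ^ 2)] P =
        aeval (R := ℂ) ![1 / (n : ℂ) * t1, 1 / 2 * (t2 - 1 / (n : ℂ) * t1 ^ 2)] P :=
      fun P => congrArg (fun φ : MvPolynomial (Fin 2) ℂ →+* ℂ => φ P) (coe_aeval_eq_eval _).symm
    rw [h1, h2, comp_aeval_apply]
    congr 1
    congr 1
    funext i
    fin_cases i <;> simp
  refine ⟨H, ?_⟩
  -- the generic case
  have hgen : ∀ x : Fin n → ℂ,
      (∑ i, x i * x i - 1 / (n : ℂ) * (∑ i, x i) ^ 2) *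
        ((∑ i, x i * x i - 1 / (n : ℂ) * (∑ i, x i) ^ 2) - 1 / 2 * (x i0 - x i1) ^ 2) ≠ 0 →
      eval x G = eval ![∑ i, x i, ∑ i, x i * x i] H := by
    intro x hx
    set ρ : ℂ := ∑ i, x i * x i - 1 / (n : ℂ) * (∑ i, x i) ^ 2 with hρ
    have hρ0 : ρ ≠ 0 := left_ne_zero_of_mul hx
    have hρ1 : ρ - 1 / 2 * (x i0 - x i1) ^ 2 ≠ 0 := right_ne_zero_of_mul hx
    set s : ℂ := 1 / (n : ℂ) * ∑ i, x i with hs
    have hns : (n : ℂ) * s = ∑ i, x i := by
      rw [hs]
      field_simp
    obtain ⟨c, hc⟩ := IsAlgClosed.exists_pow_nat_eq (1 / 2 * ρ) (n := 2) (by norm_num)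
    have hu : ∑ i, (x i - s) = 0 := by
      rw [Finset.sum_sub_distrib, Finset.sum_const, Finset.card_univ, Fintype.card_fin,
        nsmul_eq_mul, hns, sub_self]
    have huu : ∑ i, (x i - s) * (x i - s) = ρ := by
      have : ∀ i, (x i - s) * (x i - s) = x i * x i - 2 * s * x i + s * s := by
        intro i; ring
      rw [Finset.sum_congr rfl fun i _ => this i, Finset.sum_add_distrib,
        Finset.sum_sub_distrib, ← Finset.mul_sum, Finset.sum_const, Finset.card_univ,
        Fintype.card_fin, nsmul_eq_mul, hρ, ← hns]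
      field_simp
      ring
    have hv : ∑ i, c * vv i = 0 := by
      have := hvsum (fun _ => c)
      rw [this, sub_self]
    have hvv : ∑ i, (c * vv i) * (c * vv i) = ρ := by
      have h1 : ∀ i, (c * vv i) * (c * vv i) = (c * c * vv i) * vv i := by intro i; ring
      rw [Finset.sum_congr rfl fun i _ => h1 i, hvsum (fun i => c * c * vv i)]
      have h2 : vv i0 = 1 := if_pos rfl
      have h3 : vv i1 = -1 := (if_neg h01.symm).trans (if_pos rfl)
      rw [h2, h3]
      linear_combination 2 * hc
    have huv : ∑ i, (x i - s) * (c * vv i) = c * (x i0 - x i1) := by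
      have h1 : ∀ i, (x i - s) * (c * vv i) = (c * (x i - s)) * vv i := by intro i; ring
      rw [Finset.sum_congr rfl fun i _ => h1 i, hvsum (fun i => c * (x i - s))]
      ring
    have hne : (∑ i, (x i - s) * (c * vv i)) ^ 2 ≠ ρ ^ 2 := by
      rw [huv, mul_pow, hc]
      intro h
      have : ρ * (ρ - 1 / 2 * (x i0 - x i1) ^ 2) = 0 := by linear_combination -h
      exact hx this
    have h1 := rot hW s (fun i => x i - s) (fun i => c * vv i) hu hv ρ hρ0 huu hvv hne
    have h2 : (fun i => s + (x i - s)) = x := by funext i; ring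
    rw [h2, ← hq, hq2, hc] at h1
    rw [h1, hH]
  -- passage to all points
  let R : MvPolynomial (Fin n) ℂ := ∑ i, X i * X i - C (1 / (n : ℂ)) * (∑ i, X i) ^ 2
  let Cd : MvPolynomial (Fin n) ℂ := R * (R - C (1 / 2) * (X i0 - X i1) ^ 2)
  have hCd : ∀ x : Fin n → ℂ, eval x Cd =
      (∑ i, x i * x i - 1 / (n : ℂ) * (∑ i, x i) ^ 2) *
        ((∑ i, x i * x i - 1 / (n : ℂ) * (∑ i, x i) ^ 2) - 1 / 2 * (x i0 - x i1) ^ 2) := by
    intro x
    simp only [Cd, R, map_mul, map_sub, map_sum, map_pow, eval_C, eval_X]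
  have hCd0 : Cd ≠ 0 := by
    intro h
    have h1 := hCd (fun i => if i = i2 then 1 else 0)
    rw [h, map_zero] at h1
    have h2 : ∑ i, ((if i = i2 then (1 : ℂ) else 0) * if i = i2 then (1 : ℂ) else 0) = 1 := by
      simp
    have h3 : ∑ i, (if i = i2 then (1 : ℂ) else 0) = 1 := by simp
    rw [h2, h3, if_neg h20.symm, if_neg h21.symm] at h1
    have h4 : (1 : ℂ) - 1 / (n : ℂ) * 1 ^ 2 ≠ 0 := by
      intro h5
      have h6 : (n : ℂ) = 1 := by
        field_simp at h5
        linear_combination h5
      have h7 : n = 1 := by exact_mod_cast h6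
      omega
    have h8 : ((1 : ℂ) - 1 / (n : ℂ) * 1 ^ 2) * ((1 - 1 / (n : ℂ) * 1 ^ 2) -
        1 / 2 * (0 - 0) ^ 2) ≠ 0 := by
      refine mul_ne_zero h4 ?_
      rw [sub_zero, zero_pow (by norm_num), mul_zero, sub_zero]
      exact h4
    exact h8 h1.symm
  let P : MvPolynomial (Fin n) ℂ := G - aeval ![∑ i, X i, ∑ i, X i * X i] H
  have hP : ∀ x : Fin n → ℂ, eval x P = eval x G - eval ![∑ i, x i, ∑ i, x i * x i] H := by
    intro x
    simp only [P, map_sub]
    congr 1
    have h1 : ∀ K : MvPolynomial (Fin n) ℂ, eval x K = aeval (R := ℂ) x K :=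
      fun K => congrArg (fun φ : MvPolynomial (Fin n) ℂ →+* ℂ => φ K) (coe_aeval_eq_eval _).symm
    have h2 : eval ![∑ i, x i, ∑ i, x i * x i] H =
        aeval (R := ℂ) ![∑ i, x i, ∑ i, x i * x i] H :=
      congrArg (fun φ : MvPolynomial (Fin 2) ℂ →+* ℂ => φ H) (coe_aeval_eq_eval _).symm
    rw [h1, h2, comp_aeval_apply]
    congr 1
    congr 1
    funext i
    fin_cases i <;> simp
  have hPC : P * Cd = 0 := by
    refine MvPolynomial.funext fun x => ?_
    rw [map_mul, map_zero]
    by_cases h : eval x Cd = 0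
    · rw [h, mul_zero]
    · rw [hP, hgen x (by rw [← hCd]; exact h), sub_self, zero_mul]
  have hP0 : P = 0 := (mul_eq_zero.1 hPC).resolve_right hCd0
  intro x
  have := hP x
  rw [hP0, map_zero] at this
  exact (sub_eq_zero.1 this.symm)

end Pool.Agent.helper747_sp
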