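import Pool.Agent.helper747_sp.Dense
import Pool.Agent.helper747_sp.Circle

/-!
# Invariant polynomials that are not polynomials in `tr A` and `tr A ^ 2`
-/

set_option autoImplicit false

namespace Pool.Agent.helper747_sp

open MvPolynomial Matrix

variable {n : ℕ}

/-- `f` is a polynomial in `tr A` and `tr A ^ 2` -/
def OfTraces (f : Pol n) : Prop :=
  ∃ H : MvPolynomial (Fin 2) ℂ, ∀ A : Mt n, val f A = eval ![A.trace, (A * A).trace] H

/-- the restriction to diagonal matrices -/
noncomputable def gg (f : Pol n) : MvPolynomial (Fin n) ℂ :=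
  aeval (fun p : Fin n × Fin n => if p.1 = p.2 then X p.1 else 0) f

theorem eval_gg (f : Pol n) (x : Fin n → ℂ) : eval x (gg f) = val f (Matrix.diagonal x) := by
  have h1 : eval x (gg f) = aeval (R := ℂ) x (gg f) :=
    congrArg (fun φ : MvPolynomial (Fin n) ℂ →+* ℂ => φ (gg f)) (coe_aeval_eq_eval _).symm
  rw [h1, val_aeval, gg, comp_aeval_apply]
  congr 1
  congr 1
  funext p
  by_cases h : p.1 = p.2
  · rw [if_pos h, aeval_X, ← h, Matrix.diagonal_apply_eq]
  · rw [if_neg h, map_zero, Matrix.diagonal_apply_ne _ h]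

theorem pderiv_gg (f : Pol n) (i : Fin n) : pderiv i (gg f) = gg (pderiv (i, i) f) := by
  have h := chain (pderiv (R := ℂ) i)
    (aeval (fun p : Fin n × Fin n => if p.1 = p.2 then (X p.1 : MvPolynomial (Fin n) ℂ) else 0)) f
  change pderiv i (gg f) = _ at h
  rw [h, Finset.sum_eq_single (i, i)]
  · rw [aeval_X, if_pos rfl, pderiv_X_self, mul_one]
    rfl
  · rintro ⟨a, b⟩ - hne
    rw [aeval_X]
    by_cases hab : a = b
    · subst hab
      rw [if_pos rfl, pderiv_X_of_ne, mul_zero]
      rintro rfl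
      exact hne rfl
    · rw [if_neg hab, map_zero, mul_zero]
  · intro h; exact absurd (Finset.mem_univ _) h

theorem eval_pderiv_gg (f : Pol n) (x : Fin n → ℂ) (i : Fin n) :
    eval x (pderiv i (gg f)) = a1 f x i := by
  rw [pderiv_gg, eval_gg, a1, dd_single]

theorem val_perm {f : Pol n} (hf : Invariant f) (σ : Equiv.Perm (Fin n)) (x : Fin n → ℂ) :
    val f (Matrix.diagonal (x ∘ σ)) = val f (Matrix.diagonal x) := by
  obtain ⟨g, hg⟩ : ∃ g : Mt n, ∀ i a, g i a = if σ i = a then 1 else 0 :=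
    ⟨fun i a => if σ i = a then 1 else 0, fun _ _ => rfl⟩
  obtain ⟨h, hh⟩ : ∃ h : Mt n, ∀ b j, h b j = if σ j = b then 1 else 0 :=
    ⟨fun b j => if σ j = b then 1 else 0, fun _ _ => rfl⟩
  have h1 : g * h = 1 := by
    ext i j
    rw [Matrix.mul_apply, Finset.sum_eq_single (σ i)]
    · rw [hg, hh, if_pos rfl, one_mul, Matrix.one_apply]
      by_cases hij : i = j
      · rw [if_pos hij, if_pos (by rw [hij])]
      · rw [if_neg hij, if_neg fun h' => hij (σ.injective h').symm]
    · intro a _ ha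
      rw [hg, if_neg (Ne.symm ha), zero_mul]
    · intro h'; exact absurd (Finset.mem_univ _) h'
  rw [← hf g h (Matrix.diagonal x) h1]
  congr 1
  ext i j
  rw [mul3_apply, Finset.sum_eq_single (σ i), Finset.sum_eq_single (σ j), hg, hh, if_pos rfl,
    if_pos rfl, one_mul, one_mul]
  · by_cases hij : i = j
    · rw [hij, Matrix.diagonal_apply_eq, Matrix.diagonal_apply_eq]
      rfl
    · rw [Matrix.diagonal_apply_ne _ hij, Matrix.diagonal_apply_ne _ fun h' => hij (σ.injective h')]
  · intro b _ hb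
    rw [hh, if_neg (Ne.symm hb)]
    ring
  · intro h'; exact absurd (Finset.mem_univ _) h'
  · intro a _ ha
    refine Finset.sum_eq_zero fun b _ => ?_
    rw [hg, if_neg (Ne.symm ha)]
    ring
  · intro h'; exact absurd (Finset.mem_univ _) h'

theorem rename_gg {f : Pol n} (hf : Invariant f) (σ : Equiv.Perm (Fin n)) :
    rename σ (gg f) = gg f := by
  refine MvPolynomial.funext fun x => ?_
  rw [eval_rename, eval_gg, eval_gg, val_perm hf]

/-- the polynomial that decides whether three indices can be used -/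
noncomputable def WW (f : Pol n) (i j k : Fin n) : MvPolynomial (Fin n) ℂ :=
  (X j - X k) * pderiv i (gg f) + (X k - X i) * pderiv j (gg f) + (X i - X j) * pderiv k (gg f)

theorem eval_WW (f : Pol n) (i j k : Fin n) (x : Fin n → ℂ) : eval x (WW f i j k) =
    (x j - x k) * a1 f x i + (x k - x i) * a1 f x j + (x i - x j) * a1 f x k := by
  simp only [WW, map_add, map_mul, map_sub, eval_X, eval_pderiv_gg]

theorem WW_perm {f : Pol n} (hf : Invariant f) (σ : Equiv.Perm (Fin n)) (i j k : Fin n) :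
    WW f (σ i) (σ j) (σ k) = rename σ (WW f i j k) := by
  have h : ∀ i, pderiv (σ i) (gg f) = rename σ (pderiv i (gg f)) := by
    intro i
    conv_lhs => rw [← rename_gg hf σ]
    rw [pderiv_rename σ.injective]
  simp only [WW, map_add, map_mul, map_sub, rename_X, h]

theorem exists_perm {i j k i' j' k' : Fin n} (h1 : i ≠ j) (h2 : i ≠ k) (h3 : j ≠ k)
    (h1' : i' ≠ j') (h2' : i' ≠ k') (h3' : j' ≠ k') :
    ∃ σ : Equiv.Perm (Fin n), σ i = i' ∧ σ j = j' ∧ σ k = k' := by
  have e : ∀ {a b c : Fin n}, a ≠ b → a ≠ c → b ≠ c → Function.Injective ![a, b, c] := by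
    intro a b c hab hac hbc p q hpq
    fin_cases p <;> fin_cases q <;> simp_all
  let u : Fin 3 ↪ Fin n := ⟨![i, j, k], e h1 h2 h3⟩
  let u' : Fin 3 ↪ Fin n := ⟨![i', j', k'], e h1' h2' h3'⟩
  obtain ⟨σ, hσ⟩ := (Equiv.Perm.isMultiplyPretransitive (Fin n) 3).exists_smul_eq u u'
  refine ⟨σ, ?_, ?_, ?_⟩
  · exact congrArg (fun v : Fin 3 ↪ Fin n => v 0) hσ
  · exact congrArg (fun v : Fin 3 ↪ Fin n => v 1) hσ
  · exact congrArg (fun v : Fin 3 ↪ Fin n => v 2) hσ

theorem WW_ne {f : Pol n} (hf : Invariant f) {i j k i' j' k' : Fin n} (h1 : i ≠ j) (h2 : i ≠ k)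
    (h3 : j ≠ k) (h1' : i' ≠ j') (h2' : i' ≠ k') (h3' : j' ≠ k') (h : WW f i j k = 0) :
    WW f i' j' k' = 0 := by
  obtain ⟨σ, rfl, rfl, rfl⟩ := exists_perm h1 h2 h3 h1' h2' h3'
  rw [WW_perm hf, h, map_zero]

theorem trace_conj (g h A : Mt n) (hgh : g * h = 1) : (g * A * h).trace = A.trace := by
  have hhg : h * g = 1 := mul_eq_one_comm.1 hgh
  rw [Matrix.trace_mul_comm, ← mul_assoc, hhg, one_mul]

/-- An invariant polynomial which is not a polynomial in the first two traces has a generic
point. -/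
theorem WW_ne_zero (hn : 3 ≤ n) {f : Pol n} (hf : Invariant f) (hnot : ¬ OfTraces f)
    {i j k : Fin n} (h1 : i ≠ j) (h2 : i ≠ k) (h3 : j ≠ k) : WW f i j k ≠ 0 := by
  intro h0
  apply hnot
  have hall : ∀ i j k, WW f i j k = 0 := by
    intro i' j' k'
    by_cases h1' : i' = j'
    · subst h1'
      unfold WW
      ring
    by_cases h2' : i' = k'
    · subst h2'
      unfold WW
      ring
    by_cases h3' : j' = k'
    · subst h3'
      unfold WW
      ring
    exact WW_ne hf h1 h2 h3 h1' h2' h3' h0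
  obtain ⟨H, hH⟩ := two_sums hn (gg f) (fun σ x => by rw [eval_gg, eval_gg, val_perm hf]) hall
  refine ⟨H, ?_⟩
  let v : Pol n := f - aeval ![∑ i : Fin n, X (i, i), ∑ i : Fin n, ∑ j : Fin n, X (i, j) * X (j, i)] H
  have hv : ∀ A, val v A = val f A - eval ![A.trace, (A * A).trace] H := by
    intro A
    rw [val_sub]
    congr 1
    have h2 : eval ![A.trace, (A * A).trace] H = aeval (R := ℂ) ![A.trace, (A * A).trace] H :=
      congrArg (fun φ : MvPolynomial (Fin 2) ℂ →+* ℂ => φ H) (coe_aeval_eq_eval _).symm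
    rw [val_aeval, h2, comp_aeval_apply]
    congr 1
    congr 1
    funext i
    fin_cases i
    · simp [Matrix.trace]
    · simp [Matrix.trace, Matrix.mul_apply]
  have hv0 : v = 0 := by
    by_contra hne
    obtain ⟨g, h, x, hgh, -, hx⟩ := dense v hne 1 one_ne_zero
    apply hx
    rw [hv, hf g h _ hgh, ← eval_gg, hH, trace_conj g h _ hgh]
    have hhg : h * g = 1 := mul_eq_one_comm.1 hgh
    have e1 : g * Matrix.diagonal x * h * (g * Matrix.diagonal x * h) =
        g * (Matrix.diagonal x * Matrix.diagonal x) * h := by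
      calc g * Matrix.diagonal x * h * (g * Matrix.diagonal x * h)
          = g * Matrix.diagonal x * (h * g) * Matrix.diagonal x * h := by
            simp only [mul_assoc]
        _ = _ := by rw [hhg, mul_one]; simp only [mul_assoc]
    rw [e1, trace_conj g h _ hgh, Matrix.diagonal_mul_diagonal, Matrix.trace_diagonal,
      Matrix.trace_diagonal, sub_self]
  intro A
  have := hv A
  rw [hv0] at this
  have h4 : val (0 : Pol n) A = 0 := by simp [val]
  rw [h4] at this
  exact (sub_eq_zero.1 this.symm)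

end Pool.Agent.helper747_sp
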