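import Pool.Agent.helper747_sp.Rat
import Pool.Agent.helper747_sp.Sym
import Pool.Agent.H515R2.MMR.Rank

/-!
# The lower bound
-/

set_option autoImplicit false

namespace Pool.Agent.helper747_sp

open MvPolynomial Matrix
open Pool.Agent.H53R3 (SLPComputes)
open Pool.Agent.H515R2.MMR

variable {n : ℕ}

/-- `f` can be computed from the entries of the matrix by a straight-line program in the field of
rational functions with `L` multiplications and divisions; additions and multiplications by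
complex numbers are not counted. -/
def Comp (f : Pol n) (L : ℕ) : Prop :=
  SLPComputes (fun k : Fin (n * n) => xr (finProdFinEquiv.symm k)) L
    {algebraMap (Pol n) (Rf (Fin n × Fin n)) f}

theorem dd_smul' (c : ℂ) (Y : Mt n) (f : Pol n) : dd (c • Y) f = c • dd Y f := by
  rw [dd_smul, C_mul']

theorem val_smul (c : ℂ) (g : Pol n) (A : Mt n) : val (c • g) A = c * val g A := by
  rw [← C_mul', val_Cmul]

theorem torus {f : Pol n} (hf : Invariant f) (x t : Fin n → ℂ) (ht : ∀ i, t i ≠ 0)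
    (p q q' r r' p' : Fin n) :
    val (dd (E p q) (dd (E q' r) (dd (E r' p') f))) (Matrix.diagonal x) =
      (t p * (t q)⁻¹) * ((t q' * (t r)⁻¹) * (t r' * (t p')⁻¹)) *
        val (dd (E p q) (dd (E q' r) (dd (E r' p') f))) (Matrix.diagonal x) := by
  have hgh : (Matrix.diagonal t : Mt n) * Matrix.diagonal (fun i => (t i)⁻¹) = 1 := by
    rw [Matrix.diagonal_mul_diagonal, ← Matrix.diagonal_one]
    congr 1
    funext i
    exact mul_inv_cancel₀ (ht i)
  have hE : ∀ a b : Fin n, (Matrix.diagonal t : Mt n) * E a b *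
      Matrix.diagonal (fun i => (t i)⁻¹) = (t a * (t b)⁻¹) • E a b := by
    intro a b
    ext c d
    rw [Matrix.mul_diagonal, Matrix.diagonal_mul, Matrix.smul_apply, smul_eq_mul]
    simp only [E, Matrix.single_apply]
    by_cases h : a = c ∧ b = d
    · obtain ⟨rfl, rfl⟩ := h
      simp
    · rw [if_neg h]
      ring
  have hD : (Matrix.diagonal t : Mt n) * Matrix.diagonal x *
      Matrix.diagonal (fun i => (t i)⁻¹) = Matrix.diagonal x := by
    rw [Matrix.diagonal_mul_diagonal, Matrix.diagonal_mul_diagonal]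
    congr 1
    funext i
    rw [mul_comm (t i), mul_assoc, mul_inv_cancel₀ (ht i), mul_one]
  have h := hf.third hgh (Matrix.diagonal x) (E p q) (E q' r) (E r' p')
  rw [hD, hE, hE, hE, dd_smul', dd_smul', dd_smul'] at h
  rw [Derivation.map_smul, Derivation.map_smul, Derivation.map_smul, val_smul, val_smul,
    val_smul] at h
  linear_combination h

theorem off (f : Pol n) (hf : Invariant f) (x : Fin n → ℂ) (a p q q' r r' p' : Fin n)
    (h : (fun b : Fin n => if b = a then (2 : ℂ) else 1) p *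
      ((fun b : Fin n => if b = a then (2 : ℂ) else 1) q)⁻¹ *
      (((fun b : Fin n => if b = a then (2 : ℂ) else 1) q' *
        ((fun b : Fin n => if b = a then (2 : ℂ) else 1) r)⁻¹) *
      ((fun b : Fin n => if b = a then (2 : ℂ) else 1) r' *
        ((fun b : Fin n => if b = a then (2 : ℂ) else 1) p')⁻¹)) ≠ 1) :
    val (dd (E p q) (dd (E q' r) (dd (E r' p') f))) (Matrix.diagonal x) = 0 := by
  have h1 := torus hf x (fun b : Fin n => if b = a then (2 : ℂ) else 1)
    (fun i => by by_cases hi : i = a <;> simp [hi]) p q q' r r' p'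
  by_contra hne
  apply h
  have h2 : ∀ u v : ℂ, v ≠ 0 → v = u * v → u = 1 := by
    intro u v hv huv
    have : (u - 1) * v = 0 := by linear_combination -huv
    have := (mul_eq_zero.1 this).resolve_right hv
    linear_combination this
  exact h2 _ _ hne h1

theorem val_dd (Y : Mt n) (g : Pol n) (A : Mt n) :
    val (dd Y g) A = ∑ a, val (pderiv a g) A * Y a.1 a.2 := by
  rw [dd_apply]
  simp only [val, map_sum, map_mul, eval_C]

theorem pderiv_dd (a : Fin n × Fin n) (Y : Mt n) (g : Pol n) :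
    pderiv a (dd Y g) = dd Y (pderiv a g) := by
  have h := dd_comm (E a.1 a.2) Y g
  rwa [dd_single, dd_single] at h

/-- linear forms of matrices -/
def lf (y : Fin n × Fin n → ℂ) (Y : Mt n) : ℂ := ∑ a, y a * Y a.1 a.2

theorem tri_lf (u v w : Fin n × Fin n → ℂ) (Y Z W : Mt n) :
    ∑ a, ∑ b, ∑ c, (w c * v b * u a) * W c.1 c.2 * Z b.1 b.2 * Y a.1 a.2 =
      lf u Y * lf v Z * lf w W := by
  unfold lf
  rw [mul_assoc, Finset.sum_mul]
  refine Finset.sum_congr rfl fun a _ => ?_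
  rw [Finset.sum_mul, Finset.mul_sum]
  refine Finset.sum_congr rfl fun b _ => ?_
  rw [Finset.mul_sum, Finset.mul_sum]
  refine Finset.sum_congr rfl fun c _ => ?_
  ring

theorem form_eq (f : Pol n) (A : Mt n) {L : ℕ} (y p q : Fin L → Fin n × Fin n → ℂ)
    (H : ∀ a b c : Fin n × Fin n, val (pderiv a (pderiv b (pderiv c f))) A =
      ∑ k, s3 (y k) (p k) (q k) a b c) (Y Z W : Mt n) :
    val (dd Y (dd Z (dd W f))) A = ∑ k,
      (lf (y k) Y * lf (p k) Z * lf (q k) W + lf (y k) Y * lf (q k) Z * lf (p k) W +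
      lf (p k) Y * lf (y k) Z * lf (q k) W + lf (q k) Y * lf (y k) Z * lf (p k) W +
      lf (p k) Y * lf (q k) Z * lf (y k) W + lf (q k) Y * lf (p k) Z * lf (y k) W) := by
  have h1 : val (dd Y (dd Z (dd W f))) A = ∑ a, ∑ b, ∑ c,
      val (pderiv c (pderiv b (pderiv a f))) A * W c.1 c.2 * Z b.1 b.2 * Y a.1 a.2 := by
    rw [val_dd]
    refine Finset.sum_congr rfl fun a _ => ?_
    rw [pderiv_dd, pderiv_dd, val_dd, Finset.sum_mul]
    refine Finset.sum_congr rfl fun b _ => ?_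
    rw [pderiv_dd, val_dd, Finset.sum_mul, Finset.sum_mul]
  have h2 : ∀ a b c : Fin n × Fin n,
      val (pderiv c (pderiv b (pderiv a f))) A * W c.1 c.2 * Z b.1 b.2 * Y a.1 a.2 =
      ∑ k, s3 (y k) (p k) (q k) c b a * W c.1 c.2 * Z b.1 b.2 * Y a.1 a.2 := by
    intro a b c
    rw [H, Finset.sum_mul, Finset.sum_mul, Finset.sum_mul]
  rw [h1]
  calc ∑ a, ∑ b, ∑ c, val (pderiv c (pderiv b (pderiv a f))) A * W c.1 c.2 * Z b.1 b.2 *
        Y a.1 a.2
      = ∑ a, ∑ b, ∑ c, ∑ k, s3 (y k) (p k) (q k) c b a * W c.1 c.2 * Z b.1 b.2 * Y a.1 a.2 :=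
        Finset.sum_congr rfl fun a _ => Finset.sum_congr rfl fun b _ =>
          Finset.sum_congr rfl fun c _ => h2 a b c
    _ = ∑ a, ∑ b, ∑ k, ∑ c, s3 (y k) (p k) (q k) c b a * W c.1 c.2 * Z b.1 b.2 * Y a.1 a.2 :=
        Finset.sum_congr rfl fun a _ => Finset.sum_congr rfl fun b _ => Finset.sum_comm
    _ = ∑ a, ∑ k, ∑ b, ∑ c, s3 (y k) (p k) (q k) c b a * W c.1 c.2 * Z b.1 b.2 * Y a.1 a.2 :=
        Finset.sum_congr rfl fun a _ => Finset.sum_comm
    _ = ∑ k, ∑ a, ∑ b, ∑ c, s3 (y k) (p k) (q k) c b a * W c.1 c.2 * Z b.1 b.2 * Y a.1 a.2 :=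
        Finset.sum_comm
    _ = _ := by
        refine Finset.sum_congr rfl fun k _ => ?_
        rw [← tri_lf, ← tri_lf, ← tri_lf, ← tri_lf, ← tri_lf, ← tri_lf]
        simp only [← Finset.sum_add_distrib]
        refine Finset.sum_congr rfl fun a _ => Finset.sum_congr rfl fun b _ =>
          Finset.sum_congr rfl fun c _ => ?_
        unfold s3
        ring

/-- **The lower bound.** A program for an invariant polynomial that is not a polynomial in
`tr A` and `tr A ^ 2` gives a fast algorithm for matrix multiplication. -/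
theorem lower {m L : ℕ} (hm : 3 ≤ m) (hn : 3 * m ≤ n) {f : Pol n} (hf : Invariant f)
    (hnot : ¬ OfTraces f) (hL : Comp f L) : HasRank m (18 * L) := by
  classical
  haveI : NeZero m := ⟨by omega⟩
  obtain ⟨d, hd0, hd⟩ := third finProdFinEquiv f hL
  -- the three blocks of indices
  let u1 : Fin m → Fin n := fun i => ⟨i.1, by have := i.2; omega⟩
  let u2 : Fin m → Fin n := fun i => ⟨m + i.1, by have := i.2; omega⟩
  let u3 : Fin m → Fin n := fun i => ⟨2 * m + i.1, by have := i.2; omega⟩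
  have u11 : ∀ i j, u1 i = u1 j ↔ i = j := by
    intro i j; simp only [u1, Fin.mk.injEq, Fin.ext_iff]
  have u22 : ∀ i j, u2 i = u2 j ↔ i = j := by
    intro i j; simp only [u2, Fin.mk.injEq, Fin.ext_iff]; omega
  have u33 : ∀ i j, u3 i = u3 j ↔ i = j := by
    intro i j; simp only [u3, Fin.mk.injEq, Fin.ext_iff]; omega
  have u12 : ∀ i j, u1 i ≠ u2 j := by
    intro i j h; simp only [u1, u2, Fin.mk.injEq] at h; have := i.2; omega
  have u13 : ∀ i j, u1 i ≠ u3 j := by
    intro i j h; simp only [u1, u3, Fin.mk.injEq] at h; have := i.2; omega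
  have u23 : ∀ i j, u2 i ≠ u3 j := by
    intro i j h; simp only [u2, u3, Fin.mk.injEq] at h; have := i.2; omega
  -- three permutations of the first block
  let c0 : Fin 3 → Fin m := Fin.castLE hm
  have hc0 : Function.Injective c0 := Fin.castLE_injective hm
  let π : Fin 3 → Fin m → Fin m := fun r i => i + c0 r
  have hπ : ∀ r i j, π r i = π r j ↔ i = j := fun r i j => add_left_inj _
  have hπ' : ∀ i r s, π r i = π s i ↔ r = s := by
    intro i r s
    constructor
    · intro h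
      exact hc0 (add_left_cancel h)
    · rintro rfl; rfl
  have hn3 : 3 ≤ n := by omega
  let Wp : MvPolynomial (Fin n) ℂ := ∏ i : Fin m, WW f (u1 (π 0 i)) (u1 (π 1 i)) (u1 (π 2 i))
  have hWp : Wp ≠ 0 := by
    refine Finset.prod_ne_zero_iff.2 fun i _ => WW_ne_zero hn3 hf hnot ?_ ?_ ?_
    · rw [Ne, u11, hπ']; decide
    · rw [Ne, u11, hπ']; decide
    · rw [Ne, u11, hπ']; decide
  obtain ⟨g, h, x, hgh, hx, hv⟩ := dense d hd0 Wp hWp
  obtain ⟨y, p, q, H⟩ := hd (fun p => (g * Matrix.diagonal x * h) p.1 p.2) hv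
  have hform := form_eq f (g * Matrix.diagonal x * h) y p q H
  -- the coefficients
  let Wv : Fin m → ℂ := fun i => eval x (WW f (u1 (π 0 i)) (u1 (π 1 i)) (u1 (π 2 i)))
  have hWv : ∀ i, Wv i ≠ 0 := by
    intro i
    have h1 : eval x Wp = ∏ i, Wv i := map_prod _ _ _
    rw [h1] at hx
    exact Finset.prod_ne_zero_iff.1 hx i (Finset.mem_univ _)
  let κ : Fin 3 → Fin m → ℂ := fun r i =>
    ![(x (u1 (π 1 i)) - x (u1 (π 2 i))) / Wv i, (x (u1 (π 2 i)) - x (u1 (π 0 i))) / Wv i,
      (x (u1 (π 0 i)) - x (u1 (π 1 i))) / Wv i] r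
  have hκ : ∀ i j k, ∑ r, κ r i * ((x (u1 (π r i)) - x (u2 j)) * (x (u1 (π r i)) - x (u3 k)) *
      w3 f x (u1 (π r i)) (u2 j) (u3 k)) = 1 := by
    intro i j k
    have h1 : ∀ r, (x (u1 (π r i)) - x (u2 j)) * (x (u1 (π r i)) - x (u3 k)) *
        w3 f x (u1 (π r i)) (u2 j) (u3 k) = a1 f x (u1 (π r i)) -
        x (u1 (π r i)) * c2 f x (u2 j) (u3 k) -
        (a1 f x (u3 k) - x (u3 k) * c2 f x (u2 j) (u3 k)) :=
      fun r => hf.weight x (u12 _ _) (u13 _ _) (u23 _ _)
    rw [Finset.sum_congr rfl fun r _ => by rw [h1 r], Fin.sum_univ_three]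
    simp only [κ, Matrix.cons_val_zero, Matrix.cons_val_one, Matrix.cons_val_two,
      Matrix.head_cons, Matrix.tail_cons]
    have h2 : Wv i = (x (u1 (π 1 i)) - x (u1 (π 2 i))) * a1 f x (u1 (π 0 i)) +
        (x (u1 (π 2 i)) - x (u1 (π 0 i))) * a1 f x (u1 (π 1 i)) +
        (x (u1 (π 0 i)) - x (u1 (π 1 i))) * a1 f x (u1 (π 2 i)) := eval_WW _ _ _ _ _
    have h3 := hWv i
    field_simp
    rw [h2]
    ring
  -- mismatched indices
  have hoff : ∀ i j j' k k' l, ¬ (j = j' ∧ k = k' ∧ l = i) →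
      val (dd (E (u1 i) (u2 j)) (dd (E (u2 j') (u3 k)) (dd (E (u3 k') (u1 l)) f)))
        (Matrix.diagonal x) = 0 := by
    intro i j j' k k' l hne
    by_cases h1 : l = i
    · by_cases h2 : j = j'
      · have h3 : k ≠ k' := fun h3 => hne ⟨h2, h3, h1⟩
        refine off f hf x (u3 k') _ _ _ _ _ _ ?_
        have e1 : ¬ (u3 k = u3 k') := fun e => h3 ((u33 _ _).1 e)
        simp only [e1, u13, u23, if_false, if_true]
        norm_num
      · refine off f hf x (u2 j') _ _ _ _ _ _ ?_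
        have e1 : ¬ (u2 j = u2 j') := fun e => h2 ((u22 _ _).1 e)
        simp only [e1, u12, (u23 _ _).symm, if_false, if_true]
        norm_num
    · refine off f hf x (u1 l) _ _ _ _ _ _ ?_
      have e1 : ¬ (u1 i = u1 l) := fun e => h1 ((u11 _ _).1 e).symm
      simp only [e1, (u12 _ _).symm, (u13 _ _).symm, if_false, if_true]
      norm_num
  -- the decomposition
  let al : Fin L → Fin 6 → Mt n → ℂ := fun t s Y =>
    ![lf (y t) Y, lf (y t) Y, lf (p t) Y, lf (q t) Y, lf (p t) Y, lf (q t) Y] s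
  let be : Fin L → Fin 6 → Mt n → ℂ := fun t s Y =>
    ![lf (p t) Y, lf (q t) Y, lf (y t) Y, lf (y t) Y, lf (q t) Y, lf (p t) Y] s
  let ga : Fin L → Fin 6 → Mt n → ℂ := fun t s Y =>
    ![lf (q t) Y, lf (p t) Y, lf (q t) Y, lf (p t) Y, lf (y t) Y, lf (y t) Y] s
  have hsum : ∀ Y Z W : Mt n, ∑ t, ∑ s, al t s Y * be t s Z * ga t s W =
      val (dd Y (dd Z (dd W f))) (g * Matrix.diagonal x * h) := by
    intro Y Z W
    rw [hform]
    refine Finset.sum_congr rfl fun t _ => ?_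
    rw [Fin.sum_univ_six]
    rfl
  refine hasRank_of_hasRankT (I := Fin m) (T := Fin 3 × Fin L × Fin 6) (by simp)
    (by simp only [Fintype.card_prod, Fintype.card_fin]; ring) ?_
  refine ⟨fun T i j => κ T.1 i * (x (u1 (π T.1 i)) - x (u2 j)) *
      al T.2.1 T.2.2 (g * E (u1 (π T.1 i)) (u2 j) * h),
    fun T j' k => be T.2.1 T.2.2 (g * E (u2 j') (u3 k) * h),
    fun T k' l => (x (u1 (π T.1 l)) - x (u3 k')) *
      ga T.2.1 T.2.2 (g * E (u3 k') (u1 (π T.1 l)) * h), ?_⟩
  intro i j j' k k' l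
  rw [Fintype.sum_prod_type]
  have hr : ∀ r : Fin 3, ∑ z : Fin L × Fin 6,
      κ r i * (x (u1 (π r i)) - x (u2 j)) * al z.1 z.2 (g * E (u1 (π r i)) (u2 j) * h) *
        be z.1 z.2 (g * E (u2 j') (u3 k) * h) *
        ((x (u1 (π r l)) - x (u3 k')) * ga z.1 z.2 (g * E (u3 k') (u1 (π r l)) * h)) =
      κ r i * ((x (u1 (π r i)) - x (u2 j)) * (x (u1 (π r l)) - x (u3 k')) *
        val (dd (E (u1 (π r i)) (u2 j)) (dd (E (u2 j') (u3 k)) (dd (E (u3 k') (u1 (π r l))) f)))
          (Matrix.diagonal x)) := by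
    intro r
    rw [hf.third hgh, ← hsum, Fintype.sum_prod_type, Finset.mul_sum, Finset.mul_sum]
    refine Finset.sum_congr rfl fun t _ => ?_
    rw [Finset.mul_sum, Finset.mul_sum]
    refine Finset.sum_congr rfl fun s _ => ?_
    ring
  rw [Finset.sum_congr rfl fun r _ => hr r]
  by_cases hc : j = j' ∧ k = k' ∧ l = i
  · rw [if_pos hc]
    obtain ⟨rfl, rfl, rfl⟩ := hc
    exact (hκ l j k).symm
  · rw [if_neg hc]
    refine (Finset.sum_eq_zero fun r _ => ?_).symm
    rw [hoff (π r i) j j' k k' (π r l) (fun h' => hc ⟨h'.1, h'.2.1, (hπ r l i).1 h'.2.2⟩)]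
    ring

end Pool.Agent.helper747_sp
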