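import Mathlib

/-!
# Conjugation in Banach algebras is locally onto
-/

set_option autoImplicit false

namespace Pool.Agent.helper747_sp

open Topology

theorem exp_mul_exp_neg {𝔸 : Type*} [NormedRing 𝔸] [NormedAlgebra ℂ 𝔸] [CompleteSpace 𝔸] (x : 𝔸) :
    NormedSpace.exp x * NormedSpace.exp (-x) = 1 := by
  rw [← NormedSpace.exp_add_of_commute_of_mem_ball (𝕂 := ℂ) (Commute.neg_right (Commute.refl x))
    ((NormedSpace.expSeries_radius_eq_top ℂ 𝔸).symm ▸ edist_lt_top _ _)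
    ((NormedSpace.expSeries_radius_eq_top ℂ 𝔸).symm ▸ edist_lt_top _ _), add_neg_cancel,
    NormedSpace.exp_zero]

/-- If the commutators with `D` and the image of `dg` generate the algebra then all elements near
`D` are conjugate to elements `D + dg l` with small `l`. -/
theorem conj_open {𝔸 V : Type*} [NormedRing 𝔸] [NormedAlgebra ℂ 𝔸] [CompleteSpace 𝔸]
    [NormedAddCommGroup V] [NormedSpace ℂ V] [CompleteSpace V] (D : 𝔸) (dg : V →L[ℂ] 𝔸)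
    (hs : ∀ M : 𝔸, ∃ (C : 𝔸) (l : V), C * D + dg l - D * C = M) (U : Set V) (hU : U ∈ 𝓝 (0 : V))
    (B : 𝔸) : {s : ℂ | ∃ (g h : 𝔸), ∃ l ∈ U, g * h = 1 ∧ D + s • B = g * (D + dg l) * h} ∈
      𝓝 (0 : ℂ) := by
  let Φ : 𝔸 × V → 𝔸 := fun p =>
    NormedSpace.exp p.1 * (D + dg p.2) * NormedSpace.exp (-p.1)
  let Φ' : 𝔸 × V →L[ℂ] 𝔸 :=
    (ContinuousLinearMap.mul ℂ 𝔸).flip D ∘L ContinuousLinearMap.fst ℂ 𝔸 V +
      dg ∘L ContinuousLinearMap.snd ℂ 𝔸 V -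
      (ContinuousLinearMap.mul ℂ 𝔸) D ∘L ContinuousLinearMap.fst ℂ 𝔸 V
  have hΦ' : ∀ p, Φ' p = p.1 * D + dg p.2 - D * p.1 := fun p => rfl
  have hder : HasStrictFDerivAt Φ Φ' 0 := by
    have e0 : HasStrictFDerivAt (NormedSpace.exp : 𝔸 → 𝔸) (1 : 𝔸 →L[ℂ] 𝔸)
        ((0 : 𝔸 × V).1) := hasStrictFDerivAt_exp_zero
    have h1 : HasStrictFDerivAt (fun p : 𝔸 × V => NormedSpace.exp p.1)
        ((1 : 𝔸 →L[ℂ] 𝔸) ∘L ContinuousLinearMap.fst ℂ 𝔸 V) 0 :=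
      e0.comp (0 : 𝔸 × V) hasStrictFDerivAt_fst
    have e1 : HasStrictFDerivAt (NormedSpace.exp : 𝔸 → 𝔸) (1 : 𝔸 →L[ℂ] 𝔸)
        (-(0 : 𝔸 × V).1) := by
      have : -(0 : 𝔸 × V).1 = 0 := neg_zero
      rw [this]
      exact hasStrictFDerivAt_exp_zero
    have h2 : HasStrictFDerivAt (fun p : 𝔸 × V => NormedSpace.exp (-p.1))
        ((1 : 𝔸 →L[ℂ] 𝔸) ∘L (-ContinuousLinearMap.fst ℂ 𝔸 V)) 0 :=
      e1.comp (0 : 𝔸 × V) hasStrictFDerivAt_fst.fun_neg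
    have h3 : HasStrictFDerivAt (fun p : 𝔸 × V => D + dg p.2)
        (dg ∘L ContinuousLinearMap.snd ℂ 𝔸 V) 0 :=
      ((dg ∘L ContinuousLinearMap.snd ℂ 𝔸 V).hasStrictFDerivAt).const_add _
    have h4 := (h1.fun_mul' h3).fun_mul' h2
    refine h4.congr_fderiv ?_
    refine ContinuousLinearMap.ext fun p => ?_
    rw [hΦ']
    simp only [ContinuousLinearMap.add_apply, ContinuousLinearMap.smul_apply,
      ContinuousLinearMap.comp_apply, ContinuousLinearMap.neg_apply, ContinuousLinearMap.one_apply,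
      ContinuousLinearMap.coe_fst', ContinuousLinearMap.coe_snd', Prod.fst_zero,
      Prod.snd_zero, neg_zero, NormedSpace.exp_zero, map_zero, add_zero, smul_eq_mul, one_mul,
      MulOpposite.smul_eq_mul_unop, MulOpposite.unop_op, mul_one, mul_neg]
    abel
  have hsurj : Φ'.range = ⊤ := by
    rw [LinearMap.range_eq_top]
    intro M
    obtain ⟨C, l, h⟩ := hs M
    exact ⟨(C, l), h⟩
  have hmap := hder.map_nhds_eq_of_surj hsurj
  have hΦ0 : Φ 0 = D := by simp [Φ]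
  rw [hΦ0] at hmap
  have hS : Prod.snd ⁻¹' U ∈ 𝓝 (0 : 𝔸 × V) :=
    continuous_snd.continuousAt.preimage_mem_nhds hU
  have hI : Φ '' (Prod.snd ⁻¹' U) ∈ 𝓝 D := by
    rw [← hmap]
    exact Filter.image_mem_map hS
  have hcont : Continuous fun s : ℂ => D + s • B :=
    continuous_const.add (continuous_id.smul continuous_const)
  have hT : (fun s : ℂ => D + s • B) ⁻¹' (Φ '' (Prod.snd ⁻¹' U)) ∈ 𝓝 (0 : ℂ) := by
    refine hcont.continuousAt.preimage_mem_nhds ?_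
    simpa using hI
  refine Filter.mem_of_superset hT ?_
  rintro s ⟨p, hp, hps⟩
  exact ⟨NormedSpace.exp p.1, NormedSpace.exp (-p.1), p.2, hp, exp_mul_exp_neg _, hps.symm⟩

/-- The same for a linear map which is known to be continuous. -/
theorem conj_open' {𝔸 V : Type*} [NormedRing 𝔸] [NormedAlgebra ℂ 𝔸] [CompleteSpace 𝔸]
    [NormedAddCommGroup V] [NormedSpace ℂ V] [CompleteSpace V] (D : 𝔸) (dg : V →ₗ[ℂ] 𝔸)
    (hdg : Continuous dg)
    (hs : ∀ M : 𝔸, ∃ (C : 𝔸) (l : V), C * D + dg l - D * C = M) (U : Set V) (hU : U ∈ 𝓝 (0 : V))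
    (B : 𝔸) : {s : ℂ | ∃ (g h : 𝔸), ∃ l ∈ U, g * h = 1 ∧ D + s • B = g * (D + dg l) * h} ∈
      𝓝 (0 : ℂ) :=
  conj_open D ⟨dg, hdg⟩ hs U hU B

end Pool.Agent.helper747_sp
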