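import Pool.Agent.helper747_sp.Inv
import Pool.Agent.helper747_sp.Conj

/-!
# Diagonalisable matrices are dense
-/

set_option autoImplicit false

namespace Pool.Agent.helper747_sp

open MvPolynomial Matrix Topology

variable {n : ℕ}

theorem comm_surj (x0 : Fin n → ℂ) (hx0 : ∀ i j, i ≠ j → x0 i ≠ x0 j) (M : Mt n) :
    ∃ (C : Mt n) (l : Fin n → ℂ), C * Matrix.diagonal x0 +
      Matrix.diagonalLinearMap (Fin n) ℂ ℂ l - Matrix.diagonal x0 * C = M := by
  refine ⟨fun i j => if i = j then 0 else M i j / (x0 j - x0 i), fun i => M i i, ?_⟩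
  change _ + Matrix.diagonal _ - _ = M
  ext i j
  rw [Matrix.sub_apply, Matrix.add_apply, Matrix.mul_diagonal, Matrix.diagonal_mul]
  by_cases h : i = j
  · subst h
    simp
  · rw [if_neg h, Matrix.diagonal_apply_ne _ h]
    have : x0 j - x0 i ≠ 0 := sub_ne_zero.2 (hx0 j i (Ne.symm h))
    field_simp
    ring

open scoped Matrix.Norms.Operator in
theorem line (x0 : Fin n → ℂ) (hx0 : ∀ i j, i ≠ j → x0 i ≠ x0 j) (U : Set (Fin n → ℂ))
    (hU : U ∈ 𝓝 (0 : Fin n → ℂ)) (B : Mt n) :
    {s : ℂ | ∃ (g h : Mt n), ∃ l ∈ U, g * h = 1 ∧ Matrix.diagonal x0 + s • B =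
      g * (Matrix.diagonal x0 + Matrix.diagonal l) * h} ∈ 𝓝 (0 : ℂ) :=
  conj_open' (𝔸 := Mt n) (V := Fin n → ℂ) (Matrix.diagonal x0)
    (Matrix.diagonalLinearMap (Fin n) ℂ ℂ) (LinearMap.continuous_of_finiteDimensional _)
    (comm_surj x0 hx0) U hU B

/-- Every nonempty Zariski open set of matrices contains a matrix that is similar to a diagonal
matrix with entries in a given nonempty Zariski open set. -/
theorem dense (v : Pol n) (hv : v ≠ 0) (W : MvPolynomial (Fin n) ℂ) (hW : W ≠ 0) :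
    ∃ (g h : Mt n) (x : Fin n → ℂ), g * h = 1 ∧ eval x W ≠ 0 ∧
      val v (g * Matrix.diagonal x * h) ≠ 0 := by
  classical
  -- a good diagonal matrix
  let Vd : MvPolynomial (Fin n) ℂ := ∏ p : Fin n × Fin n, if p.1 = p.2 then 1 else X p.1 - X p.2
  have hVd : Vd ≠ 0 := by
    refine Finset.prod_ne_zero_iff.2 fun p _ => ?_
    by_cases h : p.1 = p.2
    · rw [if_pos h]; exact one_ne_zero
    · rw [if_neg h]
      exact sub_ne_zero.2 fun h' => h (X_injective h')
  obtain ⟨x0, hx0⟩ : ∃ x : Fin n → ℂ, eval x (W * Vd) ≠ 0 := by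
    by_contra hcon
    push Not at hcon
    exact mul_ne_zero hW hVd (MvPolynomial.funext fun a => by rw [hcon a, map_zero])
  rw [map_mul] at hx0
  have hW0 : eval x0 W ≠ 0 := left_ne_zero_of_mul hx0
  have hdist : ∀ i j, i ≠ j → x0 i ≠ x0 j := by
    intro i j hij h
    have h1 : eval x0 Vd ≠ 0 := right_ne_zero_of_mul hx0
    rw [map_prod] at h1
    have h2 := Finset.prod_ne_zero_iff.1 h1 (i, j) (Finset.mem_univ _)
    rw [if_neg hij, map_sub, eval_X, eval_X, h, sub_self] at h2
    exact h2 rfl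
  let U : Set (Fin n → ℂ) := {l | eval (x0 + l) W ≠ 0}
  have hU : U ∈ 𝓝 (0 : Fin n → ℂ) := by
    have hc : Continuous fun l : Fin n → ℂ => eval (x0 + l) W :=
      (MvPolynomial.continuous_eval W).comp (continuous_const.add continuous_id)
    refine hc.continuousAt.eventually_ne ?_
    simpa using hW0
  -- a line
  obtain ⟨A1, hA1⟩ : ∃ A : Mt n, val v A ≠ 0 := by
    by_contra hcon
    push Not at hcon
    exact hv (pol_ext fun A => by rw [hcon A]; simp [val])
  let r : Polynomial ℂ := aeval (fun p : Fin n × Fin n =>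
    Polynomial.C ((Matrix.diagonal x0 : Mt n) p.1 p.2) +
      Polynomial.X * Polynomial.C ((A1 - Matrix.diagonal x0 : Mt n) p.1 p.2)) v
  have hr : ∀ s : ℂ, r.eval s = val v (Matrix.diagonal x0 + s • (A1 - Matrix.diagonal x0)) := by
    intro s
    have h1 : r.eval s = Polynomial.aeval (R := ℂ) s r := by
      rw [Polynomial.coe_aeval_eq_eval]
    rw [h1, val_aeval, comp_aeval_apply]
    congr 1
    congr 1
    funext p
    simp [Matrix.add_apply, Matrix.smul_apply]
  have hr0 : r ≠ 0 := by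
    intro h
    have h1 := hr 1
    rw [h, Polynomial.eval_zero, one_smul, add_sub_cancel] at h1
    exact hA1 h1.symm
  have hinf := infinite_of_mem_nhds (0 : ℂ) (line x0 hdist U hU (A1 - Matrix.diagonal x0))
  obtain ⟨s, hs, hs'⟩ := hinf.exists_notMem_finset r.roots.toFinset
  obtain ⟨g, h, l, hl, hgh, hA⟩ := hs
  refine ⟨g, h, x0 + l, hgh, hl, ?_⟩
  have h1 : Matrix.diagonal (x0 + l) = Matrix.diagonal x0 + Matrix.diagonal l :=
    (Matrix.diagonal_add x0 l).symm
  rw [h1, ← hA, ← hr]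
  intro h0
  apply hs'
  rw [Multiset.mem_toFinset, Polynomial.mem_roots hr0]
  exact h0

end Pool.Agent.helper747_sp
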