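import Mathlib

/-!
# Polynomials of matrices that are invariant under similarity
-/

set_option autoImplicit false

namespace Pool.Agent.helper747_sp

open MvPolynomial Matrix

/-- complex `n × n` matrices -/
abbrev Mt (n : ℕ) : Type := Matrix (Fin n) (Fin n) ℂ

/-- polynomials in the entries of an `n × n` matrix -/
abbrev Pol (n : ℕ) : Type := MvPolynomial (Fin n × Fin n) ℂ

variable {n : ℕ}

/-- the value of a polynomial at a matrix -/
noncomputable def val (f : Pol n) (A : Mt n) : ℂ := eval (fun p => A p.1 p.2) f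

/-- `f` takes the same value at similar matrices -/
def Invariant (f : Pol n) : Prop := ∀ g h A : Mt n, g * h = 1 → val f (g * A * h) = val f A

theorem val_aeval (f : Pol n) (A : Mt n) :
    val f A = aeval (R := ℂ) (fun p : Fin n × Fin n => A p.1 p.2) f :=
  (congrArg (fun φ : Pol n →+* ℂ => φ f) (coe_aeval_eq_eval _)).symm

theorem pol_ext {f g : Pol n} (h : ∀ A, val f A = val g A) : f = g := by
  refine MvPolynomial.funext fun x => ?_
  exact h (Matrix.of fun i j => x (i, j))

/-- the chain rule -/
theorem chain {σ : Type} [Fintype σ] {S : Type} [CommRing S] [Algebra ℂ S]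
    (δ : Derivation ℂ S S) (φ : MvPolynomial σ ℂ →ₐ[ℂ] S) (f : MvPolynomial σ ℂ) :
    δ (φ f) = ∑ p, φ (pderiv p f) * δ (φ (X p)) := by
  classical
  induction f using MvPolynomial.induction_on with
  | C c =>
    rw [show (C c : MvPolynomial σ ℂ) = algebraMap ℂ _ c from rfl, AlgHom.commutes,
      δ.map_algebraMap]
    refine (Finset.sum_eq_zero fun p _ => ?_).symm
    rw [show (algebraMap ℂ (MvPolynomial σ ℂ) c) = C c from rfl, pderiv_C, map_zero, zero_mul]
  | add p q hp hq =>
    rw [map_add, map_add, hp, hq, ← Finset.sum_add_distrib]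
    refine Finset.sum_congr rfl fun i _ => ?_
    rw [map_add, map_add, add_mul]
  | mul_X p j hp =>
    rw [map_mul, Derivation.leibniz, hp]
    have h1 : ∀ i, φ (pderiv i (p * X j)) * δ (φ (X i)) =
        φ p * (if i = j then δ (φ (X i)) else 0) +
          φ (X j) * (φ (pderiv i p) * δ (φ (X i))) := by
      intro i
      rw [Derivation.leibniz, smul_eq_mul, smul_eq_mul, map_add, map_mul, map_mul]
      by_cases h : i = j
      · subst h
        rw [pderiv_X_self, if_pos rfl, map_one]
        ring
      · rw [pderiv_X_of_ne (fun h' => h h'.symm), if_neg h, map_zero]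
        ring
    rw [Finset.sum_congr rfl fun i _ => h1 i, Finset.sum_add_distrib, ← Finset.mul_sum,
      ← Finset.mul_sum, Finset.sum_ite_eq' Finset.univ j, if_pos (Finset.mem_univ _)]
    rfl

/-- the derivative in the direction `Y` -/
noncomputable def dd (Y : Mt n) : Derivation ℂ (Pol n) (Pol n) :=
  mkDerivation ℂ (fun p => C (Y p.1 p.2))

theorem dd_X (Y : Mt n) (p : Fin n × Fin n) : dd Y (X p) = C (Y p.1 p.2) := mkDerivation_X _ _ _

theorem dd_apply (Y : Mt n) (f : Pol n) : dd Y f = ∑ p, pderiv p f * C (Y p.1 p.2) := by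
  have h := chain (dd Y) (AlgHom.id ℂ (Pol n)) f
  simp only [AlgHom.id_apply, dd_X] at h
  exact h

theorem dd_add (Y Z : Mt n) (f : Pol n) : dd (Y + Z) f = dd Y f + dd Z f := by
  rw [dd_apply, dd_apply, dd_apply, ← Finset.sum_add_distrib]
  refine Finset.sum_congr rfl fun p _ => ?_
  rw [Matrix.add_apply, map_add, mul_add]

theorem dd_smul (c : ℂ) (Y : Mt n) (f : Pol n) : dd (c • Y) f = C c * dd Y f := by
  rw [dd_apply, dd_apply, Finset.mul_sum]
  refine Finset.sum_congr rfl fun p _ => ?_
  rw [Matrix.smul_apply, smul_eq_mul, map_mul]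
  ring

theorem dd_neg (Y : Mt n) (f : Pol n) : dd (-Y) f = - dd Y f := by
  have := dd_smul (-1) Y f
  rw [neg_one_smul] at this
  rw [this, map_neg, map_one, neg_one_mul]

theorem dd_sub (Y Z : Mt n) (f : Pol n) : dd (Y - Z) f = dd Y f - dd Z f := by
  rw [sub_eq_add_neg, dd_add, dd_neg, sub_eq_add_neg]

theorem dd_C (Y : Mt n) (c : ℂ) : dd Y (C c) = 0 := (dd Y).map_algebraMap c

theorem dd_comm (Y Z : Mt n) (f : Pol n) : dd Y (dd Z f) = dd Z (dd Y f) := by
  have h : ⁅dd Y, dd Z⁆ = 0 := by
    refine derivation_ext fun p => ?_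
    rw [Derivation.commutator_apply, dd_X, dd_X, dd_C, dd_C]
    simp
  have h1 := congrArg (fun D : Derivation ℂ (Pol n) (Pol n) => D f) h
  simp only [Derivation.commutator_apply] at h1
  exact sub_eq_zero.1 h1

theorem dd_single (a b : Fin n) (f : Pol n) : dd (Matrix.single a b 1) f = pderiv (a, b) f := by
  rw [dd_apply, Finset.sum_eq_single (a, b)]
  · simp
  · rintro ⟨c, d⟩ - hne
    have : Matrix.single a b (1 : ℂ) c d = 0 := by
      rw [Matrix.single_apply, if_neg]
      rintro ⟨rfl, rfl⟩
      exact hne rfl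
    simp [this]
  · simp

/-- the substitution of `g * A * h` for `A` -/
noncomputable def sb (g h : Mt n) : Pol n →ₐ[ℂ] Pol n :=
  aeval (fun p => ∑ a, ∑ b, C (g p.1 a * h b p.2) * X (a, b))

theorem mul3_apply (g A h : Mt n) (i j : Fin n) :
    (g * A * h) i j = ∑ a, ∑ b, g i a * h b j * A a b := by
  rw [Matrix.mul_apply]
  simp only [Matrix.mul_apply, Finset.sum_mul]
  rw [Finset.sum_comm]
  refine Finset.sum_congr rfl fun a _ => Finset.sum_congr rfl fun b _ => ?_
  ring

theorem sb_X (g h : Mt n) (p : Fin n × Fin n) :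
    sb g h (X p) = ∑ a, ∑ b, C (g p.1 a * h b p.2) * X (a, b) := aeval_X _ _

theorem val_sb (g h : Mt n) (f : Pol n) (A : Mt n) : val (sb g h f) A = val f (g * A * h) := by
  rw [val_aeval, val_aeval, sb, comp_aeval_apply]
  congr 1
  congr 1
  funext p
  simp only [map_sum, map_mul, aeval_X]
  rw [mul3_apply]
  refine Finset.sum_congr rfl fun a _ => Finset.sum_congr rfl fun b _ => ?_
  simp

theorem Invariant.sb_eq {f : Pol n} (hf : Invariant f) {g h : Mt n} (hgh : g * h = 1) :
    sb g h f = f := pol_ext fun A => by rw [val_sb, hf g h A hgh]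

theorem dd_sb (g h Y : Mt n) (f : Pol n) : dd Y (sb g h f) = sb g h (dd (g * Y * h) f) := by
  rw [chain (dd Y) (sb g h) f, dd_apply, map_sum]
  refine Finset.sum_congr rfl fun p _ => ?_
  rw [map_mul]
  congr 1
  rw [sb_X, show sb g h (C ((g * Y * h) p.1 p.2)) = C ((g * Y * h) p.1 p.2) from
    (sb g h).commutes _]
  simp only [map_sum, Derivation.leibniz, dd_X, dd_C, smul_eq_mul, mul_zero, add_zero]
  rw [mul3_apply, map_sum]
  refine Finset.sum_congr rfl fun a _ => ?_
  rw [map_sum]
  refine Finset.sum_congr rfl fun b _ => ?_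
  rw [map_mul C (g p.1 a * h b p.2) (Y a b)]

/-- Third derivatives of invariant polynomials at similar matrices. -/
theorem Invariant.third {f : Pol n} (hf : Invariant f) {g h : Mt n} (hgh : g * h = 1)
    (A Y Z W : Mt n) : val (dd Y (dd Z (dd W f))) A =
      val (dd (g * Y * h) (dd (g * Z * h) (dd (g * W * h) f))) (g * A * h) := by
  conv_lhs => rw [← hf.sb_eq hgh]
  rw [dd_sb, dd_sb, dd_sb, val_sb]

/-- the vector field `E A - A E` -/
noncomputable def th (E : Mt n) : Derivation ℂ (Pol n) (Pol n) :=
  mkDerivation ℂ (fun p => ∑ a, (C (E p.1 a) * X (a, p.2) - C (E a p.2) * X (p.1, a)))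

theorem th_X (E : Mt n) (p : Fin n × Fin n) :
    th E (X p) = ∑ a, (C (E p.1 a) * X (a, p.2) - C (E a p.2) * X (p.1, a)) := mkDerivation_X _ _ _

theorem th_C (E : Mt n) (c : ℂ) : th E (C c) = 0 := (th E).map_algebraMap c

theorem val_th (E : Mt n) (f : Pol n) (A : Mt n) :
    val (th E f) A = val (dd (E * A - A * E) f) A := by
  have h := chain (th E) (AlgHom.id ℂ (Pol n)) f
  simp only [AlgHom.id_apply, th_X] at h
  rw [h, dd_apply]
  simp only [val, map_sum, map_mul, map_sub, eval_C, eval_X]
  refine Finset.sum_congr rfl fun p _ => ?_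
  congr 1
  rw [Matrix.sub_apply, Matrix.mul_apply, Matrix.mul_apply, ← Finset.sum_sub_distrib]
  refine Finset.sum_congr rfl fun a _ => ?_
  ring

/-- Infinitesimal invariance. -/
theorem Invariant.th_eq {f : Pol n} (hf : Invariant f) {E : Mt n} (hE : E * E = 0) :
    th E f = 0 := by
  refine pol_ext fun A => ?_
  rw [val_th]
  set B : Mt n := E * A - A * E with hB
  let φ : Pol n →ₐ[ℂ] Polynomial ℂ := aeval (fun p => Polynomial.C (A p.1 p.2) +
    Polynomial.X * Polynomial.C (B p.1 p.2) -
      Polynomial.X ^ 2 * Polynomial.C ((E * A * E) p.1 p.2))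
  have hφX : ∀ p, φ (X p) = Polynomial.C (A p.1 p.2) +
      Polynomial.X * Polynomial.C (B p.1 p.2) -
      Polynomial.X ^ 2 * Polynomial.C ((E * A * E) p.1 p.2) := fun p => aeval_X _ _
  have hev : ∀ (h : Pol n) (s : ℂ), (φ h).eval s = val h (A + s • B - s ^ 2 • (E * A * E)) := by
    intro h s
    have h1 : (φ h).eval s = Polynomial.aeval (R := ℂ) s (φ h) := by
      rw [Polynomial.coe_aeval_eq_eval]
    rw [h1, val_aeval, comp_aeval_apply]
    congr 1
    congr 1
    funext p
    simp [Matrix.sub_apply, Matrix.add_apply, Matrix.smul_apply]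
    ring
  have hconst : φ f = Polynomial.C (val f A) := by
    refine Polynomial.funext fun s => ?_
    rw [hev, Polynomial.eval_C]
    have h1 : (1 + s • E) * (1 - s • E) = 1 := by
      rw [mul_sub, mul_one, add_mul, one_mul, smul_mul_smul_comm, hE, smul_zero, add_zero,
        add_sub_cancel_right]
    have h2 := hf (1 + s • E) (1 - s • E) A h1
    rw [← h2]
    congr 1
    rw [hB, mul_sub, add_mul, mul_one, one_mul, add_mul, smul_mul_assoc, smul_mul_assoc,
      mul_smul_comm, mul_smul_comm, smul_smul, smul_sub, ← sq]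
    abel
  have h1 := chain (Polynomial.derivative' (R := ℂ)) φ f
  rw [hconst] at h1
  have h2 := congrArg (Polynomial.eval 0) h1
  rw [Polynomial.derivative'_apply, Polynomial.derivative_C, Polynomial.eval_zero,
    Polynomial.eval_finset_sum] at h2
  rw [dd_apply]
  have h3 : val (∑ p, pderiv p f * C (B p.1 p.2)) A =
      ∑ p, val (pderiv p f) A * B p.1 p.2 := by
    simp only [val, map_sum, map_mul, eval_C]
  have h4 : val (0 : Pol n) A = 0 := by simp [val]
  rw [h3, h4, h2]
  refine Finset.sum_congr rfl fun p _ => ?_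
  rw [Polynomial.eval_mul, hev, hφX, Polynomial.derivative'_apply]
  congr 1
  · congr 1
    simp
  · simp [Polynomial.derivative_pow]

theorem commut (E Y : Mt n) (f : Pol n) :
    th E (dd Y f) = dd Y (th E f) - dd (E * Y - Y * E) f := by
  have h : ⁅dd Y, th E⁆ = dd (E * Y - Y * E) := by
    refine derivation_ext fun p => ?_
    rw [Derivation.commutator_apply, dd_X, dd_X, th_C, sub_zero, th_X, map_sum, Matrix.sub_apply,
      Matrix.mul_apply, Matrix.mul_apply, ← Finset.sum_sub_distrib, map_sum]
    refine Finset.sum_congr rfl fun a _ => ?_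
    rw [map_sub, map_sub, Derivation.leibniz, Derivation.leibniz, dd_X, dd_X, dd_C, dd_C]
    simp only [smul_eq_mul, mul_zero, add_zero, map_mul]
    ring
  have h1 := congrArg (fun D : Derivation ℂ (Pol n) (Pol n) => D f) h
  simp only [Derivation.commutator_apply] at h1
  rw [← h1]
  ring

/-- matrix units -/
noncomputable abbrev E (a b : Fin n) : Mt n := Matrix.single a b 1

theorem E_mul (a b c d : Fin n) : E a b * E c d = if b = c then E a d else 0 := by
  by_cases h : b = c
  · subst h
    rw [if_pos rfl, E, E, Matrix.single_mul_single_same, mul_one]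
  · rw [if_neg h, E, E, Matrix.single_mul_single_of_ne _ _ _ _ h]

theorem E_diag (x : Fin n → ℂ) (a b : Fin n) :
    E a b * Matrix.diagonal x - Matrix.diagonal x * E a b = (x b - x a) • E a b := by
  ext c d
  rw [Matrix.sub_apply, Matrix.mul_diagonal, Matrix.diagonal_mul, Matrix.smul_apply, smul_eq_mul]
  simp only [E, Matrix.single_apply]
  by_cases h : a = c ∧ b = d
  · obtain ⟨rfl, rfl⟩ := h
    simp
  · rw [if_neg h]
    ring

theorem val_neg (f : Pol n) (A : Mt n) : val (-f) A = - val f A := by simp [val]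
theorem val_sub (f g : Pol n) (A : Mt n) : val (f - g) A = val f A - val g A := by simp [val]
theorem val_add (f g : Pol n) (A : Mt n) : val (f + g) A = val f A + val g A := by simp [val]
theorem val_Cmul (c : ℂ) (g : Pol n) (A : Mt n) : val (C c * g) A = c * val g A := by simp [val]

theorem val_th_diag (x : Fin n → ℂ) (a b : Fin n) (f : Pol n) :
    val (th (E a b) f) (Matrix.diagonal x) =
      (x b - x a) * val (dd (E a b) f) (Matrix.diagonal x) := by
  rw [val_th, E_diag, dd_smul, val_Cmul]

/-- second derivatives at diagonal matrices -/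
noncomputable def c2 (f : Pol n) (x : Fin n → ℂ) (i k : Fin n) : ℂ :=
  val (dd (E k i) (dd (E i k) f)) (Matrix.diagonal x)

/-- first derivatives at diagonal matrices -/
noncomputable def a1 (f : Pol n) (x : Fin n → ℂ) (i : Fin n) : ℂ :=
  val (dd (E i i) f) (Matrix.diagonal x)

/-- third derivatives at diagonal matrices -/
noncomputable def w3 (f : Pol n) (x : Fin n → ℂ) (i j k : Fin n) : ℂ :=
  val (dd (E i j) (dd (E j k) (dd (E k i) f))) (Matrix.diagonal x)

theorem Invariant.r1 {f : Pol n} (hf : Invariant f) (x : Fin n → ℂ) {i k : Fin n} (hik : i ≠ k) :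
    (x i - x k) * c2 f x i k = a1 f x i - a1 f x k := by
  have hE : (E k i : Mt n) * E k i = 0 := by rw [E_mul, if_neg hik]
  have h1 := commut (E k i) (E i k) f
  rw [hf.th_eq hE, map_zero, zero_sub, E_mul, E_mul, if_pos rfl, if_pos rfl, dd_sub] at h1
  have h2 := congrArg (fun g => val g (Matrix.diagonal x)) h1
  simp only [val_neg, val_sub, val_th_diag] at h2
  unfold c2 a1
  linear_combination h2

theorem Invariant.r2 {f : Pol n} (hf : Invariant f) (x : Fin n → ℂ) {i j k : Fin n} (hij : i ≠ j)
    (hik : i ≠ k) (hjk : j ≠ k) :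
    (x i - x j) * w3 f x i j k = c2 f x i k - c2 f x j k := by
  have hE : (E i j : Mt n) * E i j = 0 := by rw [E_mul, if_neg hij.symm]
  have h0 := commut (E i j) (E k i) f
  rw [hf.th_eq hE, map_zero, zero_sub, E_mul, E_mul, if_neg hjk, if_pos rfl, zero_sub, dd_neg,
    neg_neg] at h0
  have h1 := commut (E i j) (E j k) (dd (E k i) f)
  rw [h0, E_mul, E_mul, if_pos rfl, if_neg hik.symm, sub_zero] at h1
  have h2 := congrArg (fun g => val g (Matrix.diagonal x)) h1
  simp only [val_sub, val_th_diag] at h2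
  unfold w3 c2
  rw [dd_comm (E k i) (E i k), dd_comm (E k j) (E j k)]
  linear_combination -h2

/-- The weights of the product of matrices contained in an invariant polynomial. -/
theorem Invariant.weight {f : Pol n} (hf : Invariant f) (x : Fin n → ℂ) {i j k : Fin n}
    (hij : i ≠ j) (hik : i ≠ k) (hjk : j ≠ k) :
    (x i - x j) * (x i - x k) * w3 f x i j k =
      a1 f x i - x i * c2 f x j k - (a1 f x k - x k * c2 f x j k) := by
  have h1 := hf.r1 x hik
  have h2 := hf.r2 x hij hik hjk
  linear_combination (x i - x k) * h2 + h1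

end Pool.Agent.helper747_sp
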