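import Pool.Agent.H53R3.Slp

/-!
# Partial derivatives of rational functions in variables with an arbitrary index set
-/

set_option autoImplicit false

namespace Pool.Agent.helper747_sp

open MvPolynomial Pool.Agent.H53R3

/-- rational functions over `ℂ` in the variables `X s`, `s : σ` -/
abbrev Rf (σ : Type) : Type := FractionRing (MvPolynomial σ ℂ)

section

variable {σ : Type}

/-- the variables, as rational functions -/
noncomputable def xr (s : σ) : Rf σ := algebraMap (MvPolynomial σ ℂ) (Rf σ) (X s)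

variable [DecidableEq σ]

/-- `p ↦ p + ε ∂ᵢ p` on polynomials -/
noncomputable def ph0 (i : σ) : MvPolynomial σ ℂ →+* DualNumber (Rf σ) :=
  eval₂Hom ((TrivSqZeroExt.inlHom (Rf σ) (Rf σ)).comp (algebraMap ℂ (Rf σ)))
    (fun j => TrivSqZeroExt.inl (xr j) + if j = i then DualNumber.eps else 0)

lemma fst_ph0 (i : σ) (p : MvPolynomial σ ℂ) :
    (ph0 i p).fst = algebraMap (MvPolynomial σ ℂ) (Rf σ) p := by
  have h : ((TrivSqZeroExt.fstHom (Rf σ) (Rf σ) (Rf σ)).toRingHom.comp (ph0 i)) =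
      algebraMap (MvPolynomial σ ℂ) (Rf σ) := by
    refine MvPolynomial.ringHom_ext ?_ ?_
    · intro c
      simp only [ph0, RingHom.comp_apply, coe_eval₂Hom, eval₂_C]
      simp [IsScalarTower.algebraMap_apply ℂ (MvPolynomial σ ℂ) (Rf σ)]
    · intro j
      simp only [ph0, RingHom.comp_apply, coe_eval₂Hom, eval₂_X]
      by_cases hj : j = i <;> simp [hj, xr]
  exact congrArg (fun f => f p) h

lemma isUnit_ph0 (i : σ) (y : nonZeroDivisors (MvPolynomial σ ℂ)) : IsUnit (ph0 i y) := by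
  rw [TrivSqZeroExt.isUnit_iff_isUnit_fst, fst_ph0]
  exact IsLocalization.map_units (Rf σ) y

/-- `z ↦ z + ε ∂ᵢ z` on rational functions -/
noncomputable def ph (i : σ) : Rf σ →+* DualNumber (Rf σ) :=
  IsLocalization.lift (M := nonZeroDivisors (MvPolynomial σ ℂ)) (isUnit_ph0 i)

lemma ph_algebraMap (i : σ) (p : MvPolynomial σ ℂ) :
    ph i (algebraMap (MvPolynomial σ ℂ) (Rf σ) p) = ph0 i p :=
  IsLocalization.lift_eq _ _

lemma fst_ph (i : σ) (z : Rf σ) : (ph i z).fst = z := by
  have h : ((TrivSqZeroExt.fstHom (Rf σ) (Rf σ) (Rf σ)).toRingHom.comp (ph i)) =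
      RingHom.id (Rf σ) := by
    refine IsLocalization.ringHom_ext (nonZeroDivisors (MvPolynomial σ ℂ)) ?_
    refine RingHom.ext fun p => ?_
    simp only [RingHom.comp_apply, ph_algebraMap]
    exact fst_ph0 i _
  exact congrArg (fun f => f z) h

/-- the derivative of a rational function with respect to a variable -/
noncomputable def dr (i : σ) (z : Rf σ) : Rf σ := (ph i z).snd

lemma isDer_dr (i : σ) : IsDer (dr i) where
  add := fun a b => by
    show (ph i (a + b)).snd = (ph i a).snd + (ph i b).snd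
    rw [map_add, TrivSqZeroExt.snd_add]
  mul := fun a b => by
    show (ph i (a * b)).snd = (ph i a).snd * b + a * (ph i b).snd
    rw [map_mul, TrivSqZeroExt.snd_mul, fst_ph, fst_ph, smul_eq_mul,
      MulOpposite.smul_eq_mul_unop, MulOpposite.unop_op, add_comm]

lemma dr_algebraMap (i : σ) (c : ℂ) : dr i (algebraMap ℂ (Rf σ) c) = 0 := by
  rw [dr, IsScalarTower.algebraMap_apply ℂ (MvPolynomial σ ℂ) (Rf σ), ph_algebraMap]
  have : algebraMap ℂ (MvPolynomial σ ℂ) c = C c := rfl
  rw [this]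
  simp [ph0]

lemma dr_xr (i j : σ) : dr i (xr j) = if j = i then 1 else 0 := by
  rw [dr, xr, ph_algebraMap]
  by_cases h : j = i <;> simp [ph0, h]

lemma dr_dr_xr (i j l : σ) : dr i (dr j (xr l)) = 0 := by
  rw [dr_xr]
  split_ifs
  · exact (isDer_dr i).one
  · exact (isDer_dr i).zero

/-- the derivatives of a polynomial -/
lemma dr_poly (i : σ) (P : MvPolynomial σ ℂ) :
    dr i (algebraMap (MvPolynomial σ ℂ) (Rf σ) P) =
      algebraMap (MvPolynomial σ ℂ) (Rf σ) (pderiv i P) := by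
  induction P using MvPolynomial.induction_on with
  | C c =>
    rw [pderiv_C, map_zero]
    have : algebraMap (MvPolynomial σ ℂ) (Rf σ) (C c) = algebraMap ℂ (Rf σ) c :=
      (IsScalarTower.algebraMap_apply ℂ (MvPolynomial σ ℂ) (Rf σ) c).symm
    rw [this, dr_algebraMap]
  | add p q hp hq => rw [map_add, (isDer_dr i).add, hp, hq, map_add, map_add]
  | mul_X p j hp =>
    rw [map_mul, (isDer_dr i).mul, hp, Derivation.leibniz, map_add, smul_eq_mul, smul_eq_mul,
      map_mul, map_mul]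
    have h1 : algebraMap (MvPolynomial σ ℂ) (Rf σ) (X j) = xr j := rfl
    rw [h1, dr_xr, pderiv_X]
    by_cases h : j = i
    · subst h
      simp
      ring
    · rw [if_neg h, Pi.single_eq_of_ne h]
      simp
      ring

end

/-- common denominators -/
lemma exists_denom {σ : Type} (s : Finset (Rf σ)) :
    ∃ d : MvPolynomial σ ℂ, d ≠ 0 ∧ ∀ z ∈ s, ∃ P : MvPolynomial σ ℂ,
      algebraMap (MvPolynomial σ ℂ) (Rf σ) P = algebraMap (MvPolynomial σ ℂ) (Rf σ) d * z := by
  obtain ⟨d, hd⟩ := IsLocalization.exist_integer_multiples_of_finset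
    (nonZeroDivisors (MvPolynomial σ ℂ)) s
  refine ⟨d, nonZeroDivisors.ne_zero d.2, fun z hz => ?_⟩
  obtain ⟨P, hP⟩ := hd z hz
  refine ⟨P, ?_⟩
  rw [hP, Algebra.smul_def]

/-- symmetric products of three vectors, with values in `ℂ` -/
def s3 {σ : Type} (y p q : σ → ℂ) (a b c : σ) : ℂ :=
  y a * (p b * q c + p c * q b) + y b * (p a * q c + p c * q a) + y c * (p a * q b + p b * q a)

/-- From a program for a polynomial to its third derivatives. -/
theorem third {σ : Type} [Fintype σ] [DecidableEq σ] {m : ℕ} (e : σ ≃ Fin m)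
    (f : MvPolynomial σ ℂ) {L : ℕ}
    (hL : SLPComputes (fun k : Fin m => xr (e.symm k)) L
      {algebraMap (MvPolynomial σ ℂ) (Rf σ) f}) :
    ∃ d : MvPolynomial σ ℂ, d ≠ 0 ∧ ∀ A : σ → ℂ, eval A d ≠ 0 →
      ∃ y p q : Fin L → σ → ℂ, ∀ a b c : σ,
        eval A (pderiv a (pderiv b (pderiv c f))) = ∑ k, s3 (y k) (p k) (q k) a b c := by
  classical
  obtain ⟨g, hg, hf⟩ := hL
  obtain ⟨p, q, hpq⟩ := slp_derivatives (fun k : Fin m => dr (e.symm k))
    (fun k => isDer_dr _) (fun k => dr_algebraMap _) (fun k : Fin m => xr (e.symm k))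
    (fun i j l => dr_dr_xr _ _ _) L g hg
  obtain ⟨y, hy⟩ := Q3_repr p q (hpq L le_rfl _ (hf _ rfl)).2
  have hinj : Function.Injective (algebraMap (MvPolynomial σ ℂ) (Rf σ)) :=
    IsFractionRing.injective _ _
  have hT : ∀ a b c : σ, algebraMap (MvPolynomial σ ℂ) (Rf σ)
      (pderiv a (pderiv b (pderiv c f))) =
      ∑ k ∈ Finset.range L, S3 (y k) (p k) (q k) (e a) (e b) (e c) := by
    intro a b c
    have h1 := congrFun (congrFun (congrFun hy (e a)) (e b)) (e c)
    simp only [Ts, Equiv.symm_apply_apply, dr_poly] at h1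
    rw [h1]
    simp only [Finset.sum_apply]
  obtain ⟨d, hd0, hd⟩ := exists_denom
    (((Finset.range L) ×ˢ (Finset.univ : Finset (Fin m))).image (fun z => y z.1 z.2) ∪
    (((Finset.range L) ×ˢ (Finset.univ : Finset (Fin m))).image (fun z => p z.1 z.2) ∪
    ((Finset.range L) ×ˢ (Finset.univ : Finset (Fin m))).image (fun z => q z.1 z.2)))
  have hY : ∀ (k : Fin L) i, ∃ P : MvPolynomial σ ℂ, algebraMap (MvPolynomial σ ℂ) (Rf σ) P =
      algebraMap (MvPolynomial σ ℂ) (Rf σ) d * y k i := fun k i => hd _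
    (Finset.mem_union_left _ (Finset.mem_image.mpr ⟨((k : ℕ), i), by simp, rfl⟩))
  have hPp : ∀ (k : Fin L) i, ∃ P : MvPolynomial σ ℂ, algebraMap (MvPolynomial σ ℂ) (Rf σ) P =
      algebraMap (MvPolynomial σ ℂ) (Rf σ) d * p k i := fun k i => hd _
    (Finset.mem_union_right _ (Finset.mem_union_left _
      (Finset.mem_image.mpr ⟨((k : ℕ), i), by simp, rfl⟩)))
  have hQ : ∀ (k : Fin L) i, ∃ P : MvPolynomial σ ℂ, algebraMap (MvPolynomial σ ℂ) (Rf σ) P =
      algebraMap (MvPolynomial σ ℂ) (Rf σ) d * q k i := fun k i => hd _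
    (Finset.mem_union_right _ (Finset.mem_union_right _
      (Finset.mem_image.mpr ⟨((k : ℕ), i), by simp, rfl⟩)))
  choose Y hY using hY
  choose P hPp using hPp
  choose Q hQ using hQ
  have hpoly : ∀ a b c : σ, d ^ 3 * pderiv a (pderiv b (pderiv c f)) =
      ∑ k : Fin L, (Y k (e a) * (P k (e b) * Q k (e c) + P k (e c) * Q k (e b)) +
        Y k (e b) * (P k (e a) * Q k (e c) + P k (e c) * Q k (e a)) +
        Y k (e c) * (P k (e a) * Q k (e b) + P k (e b) * Q k (e a))) := by
    intro a b c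
    apply hinj
    rw [map_mul, map_pow, hT, map_sum, Finset.sum_range, Finset.mul_sum]
    refine Finset.sum_congr rfl fun k _ => ?_
    simp only [map_add, map_mul, hY, hPp, hQ, S3]
    ring
  refine ⟨d, hd0, fun A hA => ?_⟩
  refine ⟨fun k a => (eval A d ^ 3)⁻¹ * eval A (Y k (e a)), fun k a => eval A (P k (e a)),
    fun k a => eval A (Q k (e a)), fun a b c => ?_⟩
  have h1 := congrArg (eval A) (hpoly a b c)
  rw [map_mul, map_pow, map_sum] at h1
  have h2 : eval A (pderiv a (pderiv b (pderiv c f))) = (eval A d ^ 3)⁻¹ *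
      (eval A d ^ 3 * eval A (pderiv a (pderiv b (pderiv c f)))) := by
    rw [inv_mul_cancel_left₀ (pow_ne_zero 3 hA)]
  rw [h2, h1, Finset.mul_sum]
  refine Finset.sum_congr rfl fun k _ => ?_
  simp only [map_add, map_mul, s3]
  ring

end Pool.Agent.helper747_sp
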